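import Pool.Agent.Q14.Kos

set_option autoImplicit false

/-!
Homology of down-closed families of subsets of `Fin n` over a field: three ways in which it does not
depend on the field.
-/

namespace Q36.FD

open Finset Pool.Agent.Q14.Kos Pool.Agent.H677R3.EdgeReg

variable {n : ℕ}

section

variable (k : Type*) [Field k]

/-- the boundary operator -/
def bd : (Finset (Fin n) → k) →ₗ[k] (Finset (Fin n) → k) := kd (fun _ => (1 : k))

lemma bd_apply (c : Finset (Fin n) → k) (T : Finset (Fin n)) :
    bd k c T = ∑ j ∈ Tᶜ, sg k j T * c (insert j T) := by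
  unfold bd
  rw [kd_apply]
  exact Finset.sum_congr rfl fun j _ => by rw [mul_one, smul_eq_mul]

lemma bd_bd (c : Finset (Fin n) → k) : bd k (bd k c) = 0 := kd_kd _ c

lemma bd_hs (w : Fin n) (c : Finset (Fin n) → k) :
    bd k (hs w k c) = c - hs w k (bd k c) := by
  funext T
  have h := kd_hs w (fun _ => (1 : k)) c T
  rw [one_smul] at h
  rw [Pi.sub_apply, ← h]
  unfold bd
  rw [add_sub_cancel_right]

/-- chains of degree `i` of a family of sets -/
def CC (F : Set (Finset (Fin n))) (i : ℕ) : Submodule k (Finset (Fin n) → k) where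
  carrier := {c | ∀ T, c T ≠ 0 → T ∈ F ∧ T.card = i}
  add_mem' := by
    intro a b ha hb T hT
    by_cases h : a T = 0
    · exact hb T fun hb0 => hT (by rw [Pi.add_apply, h, hb0, add_zero])
    · exact ha T h
  zero_mem' := fun T hT => absurd rfl hT
  smul_mem' := by
    intro r c hc T hT
    exact hc T fun h => hT (by rw [Pi.smul_apply, h, smul_zero])

/-- cycles of degree `i` -/
def ZC (F : Set (Finset (Fin n))) (i : ℕ) : Submodule k (Finset (Fin n) → k) :=
  CC k F i ⊓ LinearMap.ker (bd k)

/-- boundaries of degree `i` -/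
def BC (F : Set (Finset (Fin n))) (i : ℕ) : Submodule k (Finset (Fin n) → k) :=
  (CC k F (i + 1)).map (bd k)

/-- the dimension of the homology in degree `i` -/
noncomputable def cb (F : Set (Finset (Fin n))) (i : ℕ) : ℕ :=
  Module.finrank k (ZC k F i ⧸ (BC k F i).comap (ZC k F i).subtype)

variable {k}

lemma bd_ne_zero {c : Finset (Fin n) → k} {T : Finset (Fin n)} (h : bd k c T ≠ 0) :
    ∃ j ∉ T, c (insert j T) ≠ 0 := by
  rw [bd_apply] at h
  obtain ⟨j, hj, hj'⟩ := Finset.exists_ne_zero_of_sum_ne_zero h
  exact ⟨j, by simpa using hj, fun h0 => hj' (by rw [h0, mul_zero])⟩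

lemma hs_ne_zero {w : Fin n} {c : Finset (Fin n) → k} {T : Finset (Fin n)}
    (h : hs w k c T ≠ 0) : w ∈ T ∧ c (T.erase w) ≠ 0 := by
  unfold hs at h
  split_ifs at h with h1
  · exact ⟨h1, fun h0 => h (by rw [h0, smul_zero])⟩
  · exact absurd rfl h

lemma hs_zero (w : Fin n) : hs w k (0 : Finset (Fin n) → k) = 0 := by
  funext T
  unfold hs
  simp

lemma cb_eq_zero {F : Set (Finset (Fin n))} {i : ℕ} (h : ∀ c ∈ ZC k F i, c ∈ BC k F i) :
    cb k F i = 0 := by
  unfold cb
  have : (BC k F i).comap (ZC k F i).subtype = ⊤ := by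
    rw [eq_top_iff]
    rintro ⟨c, hc⟩ _
    exact h c hc
  rw [this]
  exact Module.finrank_zero_of_subsingleton

/-- a cycle all of whose sets can be enlarged by `w` is a boundary -/
lemma cone {F : Set (Finset (Fin n))} {i : ℕ} (w : Fin n) {c : Finset (Fin n) → k}
    (hc : c ∈ ZC k F i) (h : ∀ T, c T ≠ 0 → insert w T ∈ F) : c ∈ BC k F i := by
  refine ⟨hs w k c, ?_, ?_⟩
  · intro T hT
    obtain ⟨h1, h2⟩ := hs_ne_zero hT
    have h3 := h _ h2
    rw [insert_erase h1] at h3
    have h4 := (hc.1 _ h2).2
    rw [card_erase_of_mem h1] at h4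
    have h5 : 0 < T.card := card_pos.2 ⟨w, h1⟩
    exact ⟨h3, by omega⟩
  · have h1 : bd k c = 0 := hc.2
    rw [bd_hs, h1, hs_zero, sub_zero]

/-- down-closed -/
def Down (F : Set (Finset (Fin n))) : Prop := ∀ T ∈ F, ∀ S ⊆ T, S ∈ F

lemma almost_cone {F : Set (Finset (Fin n))} (hF : Down F) (w : Fin n)
    (U : Finset (Finset (Fin n))) (u : ℕ) (hU : ∀ T ∈ U, T ∈ F ∧ T.card = u ∧ w ∉ T)
    (hFU : ∀ T ∈ F, T ∉ U → insert w T ∈ F) (hUw : ∀ T ∈ U, insert w T ∉ F) (i : ℕ) :
    cb k F i = if i = u then U.card else 0 := by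
  classical
  split_ifs with hi
  · subst hi
    let r : ZC k F i →ₗ[k] (U → k) :=
      (LinearMap.pi fun T : U => LinearMap.proj (T : Finset (Fin n))).comp (ZC k F i).subtype
    have hr : Function.Surjective r := by
      intro g
      let e : Finset (Fin n) → k := fun T => if h : T ∈ U then g ⟨T, h⟩ else 0
      have he : ∀ T, e T ≠ 0 → T ∈ U := by
        intro T hT
        by_contra h
        exact hT (dif_neg h)
      refine ⟨⟨e - hs w k (bd k e), ?_, ?_⟩, ?_⟩
      · intro T hT
        by_cases h1 : T ∈ U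
        · exact ⟨(hU T h1).1, (hU T h1).2.1⟩
        · have h2 : hs w k (bd k e) T ≠ 0 := by
            intro h0
            apply hT
            rw [Pi.sub_apply, h0, sub_zero]
            exact dif_neg h1
          obtain ⟨h3, h4⟩ := hs_ne_zero h2
          obtain ⟨j, hj, hj'⟩ := bd_ne_zero h4
          have h5 := he _ hj'
          have h6 : T.erase w ∈ F := hF _ (hU _ h5).1 _ (subset_insert _ _)
          have h7 := (hU _ h5).2.1
          rw [card_insert_of_notMem hj] at h7
          have h8 : T.erase w ∉ U := by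
            intro h
            have := (hU _ h).2.1
            omega
          have h9 := hFU _ h6 h8
          rw [insert_erase h3] at h9
          refine ⟨h9, ?_⟩
          rw [card_erase_of_mem h3] at h7
          have h10 : 0 < T.card := card_pos.2 ⟨w, h3⟩
          omega
      · change bd k (e - hs w k (bd k e)) = 0
        rw [map_sub, bd_hs, bd_bd, hs_zero, sub_zero, sub_self]
      · funext T
        change (e - hs w k (bd k e)) T = g T
        have h1 : hs w k (bd k e) T = 0 := by
          by_contra h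
          exact (hU T T.2).2.2 (hs_ne_zero h).1
        rw [Pi.sub_apply, h1, sub_zero]
        exact dif_pos T.2
    have hk : LinearMap.ker r = (BC k F i).comap (ZC k F i).subtype := by
      ext ⟨c, hc⟩
      rw [LinearMap.mem_ker, Submodule.mem_comap]
      constructor
      · intro h
        have h0 : ∀ T ∈ U, c T = 0 := fun T hT => congrFun h ⟨T, hT⟩
        refine cone w hc fun T hT => ?_
        exact hFU T (hc.1 T hT).1 fun hTU => hT (h0 T hTU)
      · rintro ⟨b, hb, hbc⟩
        funext T
        change c T = 0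
        change bd k b = c at hbc
        rw [← hbc]
        by_contra h
        obtain ⟨j, hj, hj'⟩ := bd_ne_zero h
        obtain ⟨h1, h2⟩ := hb _ hj'
        have h3 : insert j (T : Finset (Fin n)) ∉ U := by
          intro h4
          have := (hU _ h4).2.1
          omega
        have h5 := hFU _ h1 h3
        exact hUw T T.2 (hF _ h5 _ (insert_subset_insert _ (subset_insert _ _)))
    unfold cb
    rw [← hk, (LinearMap.quotKerEquivOfSurjective r hr).finrank_eq, Module.finrank_fintype_fun_eq_card,
      Fintype.card_coe]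
  · refine cb_eq_zero fun c hc => cone w hc fun T hT => ?_
    obtain ⟨h1, h2⟩ := hc.1 T hT
    exact hFU T h1 fun h3 => hi (h2 ▸ (hU T h3).2.1)

lemma two_cones {F : Set (Finset (Fin n))} (hF : Down F) (w w' : Fin n)
    (h1 : ∀ T ∈ F, insert w T ∉ F → insert w' T ∈ F)
    (h2 : ∀ T ∈ F, insert w T ∉ F → insert w (T.erase w') ∉ F) (i : ℕ) :
    cb k F i = 0 := by
  classical
  refine cb_eq_zero fun c hc => ?_
  let e : Finset (Fin n) → k := fun T => if insert w T ∈ F then 0 else c T
  have he : ∀ T, e T ≠ 0 → T ∈ F ∧ insert w T ∉ F ∧ T.card = i := by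
    intro T hT
    by_cases h : insert w T ∈ F
    · exact absurd (if_pos h) hT
    · have h3 : c T ≠ 0 := by
        intro h0
        exact hT ((if_neg h).trans h0)
      exact ⟨(hc.1 T h3).1, h, (hc.1 T h3).2⟩
  have hb : hs w' k e ∈ CC k F (i + 1) := by
    intro T hT
    obtain ⟨h3, h4⟩ := hs_ne_zero hT
    obtain ⟨h5, h6, h7⟩ := he _ h4
    have h8 := h1 _ h5 h6
    rw [insert_erase h3] at h8
    rw [card_erase_of_mem h3] at h7
    have h9 : 0 < T.card := card_pos.2 ⟨w', h3⟩
    exact ⟨h8, by omega⟩
  have hbB : bd k (hs w' k e) ∈ BC k F i := ⟨_, hb, rfl⟩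
  have hsub : c - bd k (hs w' k e) ∈ BC k F i := by
    refine cone w ⟨?_, ?_⟩ ?_
    · refine Submodule.sub_mem _ hc.1 ?_
      intro T hT
      obtain ⟨j, hj, hj'⟩ := bd_ne_zero hT
      obtain ⟨h3, h4⟩ := hb _ hj'
      rw [card_insert_of_notMem hj] at h4
      exact ⟨hF _ h3 _ (subset_insert _ _), by omega⟩
    · have h3 : bd k c = 0 := hc.2
      change bd k (c - bd k (hs w' k e)) = 0
      rw [map_sub, h3, bd_bd, sub_zero]
    · intro T hT
      by_contra h3
      apply hT
      have h4 : bd k (hs w' k e) T = c T := by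
        rw [bd_hs, Pi.sub_apply]
        have h5 : e T = c T := if_neg h3
        have h6 : hs w' k (bd k e) T = 0 := by
          by_contra h7
          obtain ⟨h8, h9⟩ := hs_ne_zero h7
          have h10 : ∀ S, insert w S ∉ F → bd k e S = 0 := by
            intro S hS
            have h11 : bd k c S = 0 := by
              have : bd k c = 0 := hc.2
              rw [this]; rfl
            rw [← h11, bd_apply, bd_apply]
            refine Finset.sum_congr rfl fun j _ => ?_
            have h12 : insert w (insert j S) ∉ F := fun h =>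
              hS (hF _ h _ (insert_subset_insert _ (subset_insert _ _)))
            have h13 : e (insert j S) = c (insert j S) := if_neg h12
            rw [h13]
          apply h9
          apply h10
          by_cases h14 : T ∈ F
          · exact h2 T h14 h3
          · -- `T ∉ F` but `e` is nonzero above `T.erase w'`
            exfalso
            obtain ⟨j, hj, hj'⟩ := bd_ne_zero h9
            obtain ⟨h15, h16, _⟩ := he _ hj'
            have h17 := h1 _ h15 h16
            exact h14 (hF _ h17 _ (by
              intro x hx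
              by_cases hxw : x = w'
              · rw [hxw]; exact mem_insert_self _ _
              · exact mem_insert_of_mem (mem_insert_of_mem (mem_erase.2 ⟨hxw, hx⟩))))
        rw [h5, h6, sub_zero]
      rw [Pi.sub_apply, h4, sub_self]
  have := Submodule.add_mem _ hsub hbB
  rwa [sub_add_cancel] at this

lemma cb_empty (i : ℕ) : cb k (∅ : Set (Finset (Fin n))) i = 0 := by
  refine cb_eq_zero fun c hc => ?_
  have : c = 0 := by
    funext T
    by_contra h
    exact (hc.1 T h).1
  rw [this]
  exact Submodule.zero_mem _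

end

/-- combinatorial conditions that make the homology independent of the field -/
def Nice (F : Set (Finset (Fin n))) : Prop :=
  F = ∅ ∨
  (∃ (w : Fin n) (U : Finset (Finset (Fin n))) (u : ℕ), (∀ T ∈ U, T ∈ F ∧ T.card = u ∧ w ∉ T) ∧
    (∀ T ∈ F, T ∉ U → insert w T ∈ F) ∧ (∀ T ∈ U, insert w T ∉ F)) ∨
  (∃ w w' : Fin n, (∀ T ∈ F, insert w T ∉ F → insert w' T ∈ F) ∧
    (∀ T ∈ F, insert w T ∉ F → insert w (T.erase w') ∉ F))

theorem Nice.cb_eq {F : Set (Finset (Fin n))} (h : Nice F) (hF : Down F) (k k' : Type*) [Field k]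
    [Field k'] (i : ℕ) : cb k F i = cb k' F i := by
  rcases h with rfl | ⟨w, U, u, h1, h2, h3⟩ | ⟨w, w', h1, h2⟩
  · rw [cb_empty, cb_empty]
  · rw [almost_cone hF w U u h1 h2 h3, almost_cone hF w U u h1 h2 h3]
  · rw [two_cones hF w w' h1 h2, two_cones hF w w' h1 h2]

end Q36.FD
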