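import Pool.Agent.Q36.FD.Strand

set_option autoImplicit false

/-!
The ideals of the construction and the monomials in their powers.
-/

namespace Q36.FD

open Finset MvPolynomial

/-! ### Powers of monomial ideals -/

section

variable {n : ℕ} {K : Type*} [Field K]

lemma pow_mon (G : Finset (Fin n →₀ ℕ)) (l : ℕ) :
    ∃ E : Set (Fin n →₀ ℕ), monIdeal K G ^ l = Ideal.span ((fun s => monomial s (1 : K)) '' E) := by
  induction l with
  | zero =>
    refine ⟨{0}, ?_⟩
    rw [pow_zero, Set.image_singleton, Ideal.one_eq_top]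
    refine (Ideal.eq_top_of_isUnit_mem _ (x := monomial (0 : Fin n →₀ ℕ) (1 : K))
      (Ideal.subset_span (Set.mem_singleton _)) ?_).symm
    rw [monomial_zero', C_1]
    exact isUnit_one
  | succ l ih =>
    obtain ⟨E, hE⟩ := ih
    refine ⟨{s | ∃ a ∈ E, ∃ b ∈ G, s = a + b}, ?_⟩
    rw [pow_succ, hE, monIdeal, Ideal.span_mul_span']
    congr 1
    ext f
    rw [Set.mem_mul]
    constructor
    · rintro ⟨_, ⟨a, ha, rfl⟩, _, ⟨b, hb, rfl⟩, rfl⟩
      exact ⟨a + b, ⟨a, ha, b, hb, rfl⟩, by simp [monomial_mul]⟩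
    · rintro ⟨_, ⟨a, ha, b, hb, rfl⟩, rfl⟩
      exact ⟨_, ⟨a, ha, rfl⟩, _, ⟨b, hb, rfl⟩, by simp [monomial_mul]⟩

lemma mem_span_mon (E : Set (Fin n →₀ ℕ)) (m : Fin n →₀ ℕ) :
    monomial m (1 : K) ∈ Ideal.span ((fun s => monomial s (1 : K)) '' E) ↔ ∃ s ∈ E, s ≤ m := by
  rw [mem_ideal_span_monomial_image]
  constructor
  · intro h
    refine h m ?_
    rw [mem_support_iff, coeff_monomial, if_pos rfl]
    exact one_ne_zero
  · intro h s hs
    rw [mem_support_iff, coeff_monomial] at hs
    have : m = s := by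
      by_contra h1
      exact hs (if_neg h1)
    rwa [← this]

lemma mem_pow_succ (G : Finset (Fin n →₀ ℕ)) (l : ℕ) (m : Fin n →₀ ℕ) :
    monomial m (1 : K) ∈ monIdeal K G ^ (l + 1) ↔
      ∃ g ∈ G, g ≤ m ∧ monomial (m - g) (1 : K) ∈ monIdeal K G ^ l := by
  constructor
  · intro h
    obtain ⟨E, hE⟩ := pow_mon (K := K) G l
    have h1 : monIdeal K G ^ (l + 1) =
        Ideal.span ((fun s => monomial s (1 : K)) '' {s | ∃ a ∈ E, ∃ b ∈ G, s = a + b}) := by
      rw [pow_succ, hE, monIdeal, Ideal.span_mul_span']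
      congr 1
      ext f
      rw [Set.mem_mul]
      constructor
      · rintro ⟨_, ⟨a, ha, rfl⟩, _, ⟨b, hb, rfl⟩, rfl⟩
        exact ⟨a + b, ⟨a, ha, b, hb, rfl⟩, by simp [monomial_mul]⟩
      · rintro ⟨_, ⟨a, ha, b, hb, rfl⟩, rfl⟩
        exact ⟨_, ⟨a, ha, rfl⟩, _, ⟨b, hb, rfl⟩, by simp [monomial_mul]⟩
    rw [h1, mem_span_mon] at h
    obtain ⟨_, ⟨a, ha, b, hb, rfl⟩, hs⟩ := h
    refine ⟨b, hb, le_add_self.trans hs, ?_⟩
    rw [hE, mem_span_mon]
    exact ⟨a, ha, le_tsub_of_add_le_right hs⟩
  · rintro ⟨g, hg, hgm, h⟩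
    have h1 : monomial m (1 : K) = monomial (m - g) 1 * monomial g 1 := by
      rw [monomial_mul, one_mul, tsub_add_cancel_of_le hgm]
    rw [h1, pow_succ]
    exact Ideal.mul_mem_mul h (Ideal.subset_span ⟨g, hg, rfl⟩)

end

/-! ### The ideals -/

/-- the base -/
def B (h : ℕ) : ℕ := 2 * h ^ 2

/-- the degree in the last two variables -/
def D (h : ℕ) : ℕ := B h ^ 11

/-- the sum of the powers of the base -/
def S (h : ℕ) : ℕ := ∑ j : Fin 10, B h ^ (j.val + 1)

/-- the exponent at which the coefficient ideal of the higher powers is not principal -/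
def N (h : ℕ) : ℕ := 1 + (h - 1) * S h

/-- the index set of the generators of degree `D` in the last two variables -/
abbrev Ix : Type := Fin 10 ⊕ (Fin 10 ⊕ Bool)

/-- the exponents of the variable number `6` -/
def ex (h : ℕ) : Ix → ℕ
  | Sum.inl i => N h - (h - 1) * B h ^ (i.val + 1)
  | Sum.inr (Sum.inl j) => B h ^ (j.val + 1)
  | Sum.inr (Sum.inr false) => 0
  | Sum.inr (Sum.inr true) => D h

/-- the complements in `{0,…,5}` of the triangles of the triangulation of the projective plane with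
six vertices -/
def tri : Fin 10 → Finset (Fin 8) :=
  ![{3, 4, 5}, {1, 4, 5}, {1, 2, 5}, {1, 2, 3}, {2, 3, 4}, {0, 3, 5}, {0, 1, 4}, {0, 2, 5},
    {0, 1, 3}, {0, 2, 4}]

/-- the monomials in the first six variables -/
noncomputable def xp : Ix → (Fin 8 →₀ ℕ)
  | Sum.inl i => sqf (tri i)
  | Sum.inr _ => 0

/-- the generators of degree `D` in the last two variables -/
noncomputable def gen (h : ℕ) (γ : Ix) : Fin 8 →₀ ℕ :=
  xp γ + Finsupp.single 6 (ex h γ) + Finsupp.single 7 (D h - ex h γ)

/-- the generators of degree `D + 1` -/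
noncomputable def big (h : ℕ) (p : ℕ) : Fin 8 →₀ ℕ :=
  Finsupp.single 6 p + Finsupp.single 7 (D h + 1 - p)

/-- all generators -/
noncomputable def G (h : ℕ) : Finset (Fin 8 →₀ ℕ) := by
  classical
  exact Finset.univ.image (gen h) ∪ (Finset.range (D h + 2)).image (big h)

lemma mem_G {h : ℕ} {g : Fin 8 →₀ ℕ} :
    g ∈ G h ↔ (∃ γ, gen h γ = g) ∨ ∃ p ≤ D h + 1, big h p = g := by
  classical
  unfold G
  rw [mem_union, mem_image, mem_image]
  simp only [mem_univ, true_and, mem_range]
  constructor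
  · rintro (h1 | ⟨p, hp, h1⟩)
    · exact Or.inl h1
    · exact Or.inr ⟨p, by omega, h1⟩
  · rintro (h1 | ⟨p, hp, h1⟩)
    · exact Or.inl h1
    · exact Or.inr ⟨p, by omega, h1⟩

lemma tri_sub (i : Fin 10) : 6 ∉ tri i ∧ 7 ∉ tri i := by
  revert i
  decide

lemma xp6 (γ : Ix) : xp γ 6 = 0 ∧ xp γ 7 = 0 := by
  rcases γ with i | γ
  · obtain ⟨h1, h2⟩ := tri_sub i
    constructor
    · change sqf (tri i) 6 = 0
      rw [sqf_apply, if_neg h1]
    · change sqf (tri i) 7 = 0
      rw [sqf_apply, if_neg h2]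
  · exact ⟨rfl, rfl⟩

lemma gen6 (h : ℕ) (γ : Ix) : gen h γ 6 = ex h γ := by
  unfold gen
  rw [Finsupp.add_apply, Finsupp.add_apply, (xp6 γ).1]
  simp

lemma gen7 (h : ℕ) (γ : Ix) : gen h γ 7 = D h - ex h γ := by
  unfold gen
  rw [Finsupp.add_apply, Finsupp.add_apply, (xp6 γ).2]
  simp

lemma gen_x (h : ℕ) (γ : Ix) {i : Fin 8} (h6 : i ≠ 6) (h7 : i ≠ 7) : gen h γ i = xp γ i := by
  unfold gen
  rw [Finsupp.add_apply, Finsupp.add_apply, Finsupp.single_eq_of_ne h6,
    Finsupp.single_eq_of_ne h7]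
  simp

lemma big6 (h p : ℕ) : big h p 6 = p := by
  unfold big
  simp

lemma big7 (h p : ℕ) : big h p 7 = D h + 1 - p := by
  unfold big
  simp

lemma big_x (h p : ℕ) {i : Fin 8} (h6 : i ≠ 6) (h7 : i ≠ 7) : big h p i = 0 := by
  unfold big
  rw [Finsupp.add_apply, Finsupp.single_eq_of_ne h6, Finsupp.single_eq_of_ne h7, add_zero]

/-! ### Arithmetic -/

lemma two_le_B {h : ℕ} (hh : 1 ≤ h) : 2 ≤ B h := by
  unfold B
  have : 1 ≤ h ^ 2 := Nat.one_le_pow _ _ hh
  omega

lemma lt_B {h : ℕ} (hh : 1 ≤ h) : h < B h := by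
  unfold B
  nlinarith

lemma D_pos {h : ℕ} (hh : 1 ≤ h) : 2 ≤ D h := by
  unfold D
  have h1 := two_le_B hh
  calc 2 ≤ B h := h1
    _ = B h ^ 1 := (pow_one _).symm
    _ ≤ B h ^ 11 := Nat.pow_le_pow_right (by omega) (by norm_num)

lemma le_S (h : ℕ) (i : Fin 10) : B h ^ (i.val + 1) ≤ S h :=
  Finset.single_le_sum (f := fun j : Fin 10 => B h ^ (j.val + 1)) (fun _ _ => Nat.zero_le _)
    (mem_univ i)

lemma S_le {h : ℕ} (hh : 1 ≤ h) : 1 + (h - 1) * S h ≤ D h := by
  have h1 := two_le_B hh
  have h2 := lt_B hh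
  have h3 : (h - 1) * S h ≤ (B h - 1) * S h := Nat.mul_le_mul_right _ (by omega)
  have h4 : (B h - 1) * S h = B h ^ 11 - B h := by
    unfold S
    obtain ⟨b, hb⟩ : ∃ b, B h = b + 1 := ⟨B h - 1, by omega⟩
    rw [hb]
    have : b * ∑ j : Fin 10, (b + 1) ^ (j.val + 1) + (b + 1) = (b + 1) ^ 11 := by
      simp only [Fin.sum_univ_succ, Fin.sum_univ_zero, Fin.val_zero, Fin.val_succ]
      ring
    have h5 : b + 1 - 1 = b := by omega
    rw [h5]
    omega
  have h5 : 1 < B h := by omega
  have h6 : B h ≤ B h ^ 11 := by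
    calc B h = B h ^ 1 := (pow_one _).symm
      _ ≤ B h ^ 11 := Nat.pow_le_pow_right (by omega) (by norm_num)
  unfold D
  omega

lemma ex_le {h : ℕ} (hh : 1 ≤ h) (γ : Ix) : ex h γ ≤ D h := by
  rcases γ with i | j | b
  · have := S_le hh
    change N h - (h - 1) * B h ^ (i.val + 1) ≤ D h
    unfold N
    omega
  · change B h ^ (j.val + 1) ≤ B h ^ 11
    have := two_le_B hh
    exact Nat.pow_le_pow_right (by omega) (by omega)
  · cases b
    · exact Nat.zero_le _
    · exact le_rfl

lemma ex_inl {h : ℕ} (i : Fin 10) : ex h (Sum.inl i) + (h - 1) * B h ^ (i.val + 1) = N h := by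
  change N h - (h - 1) * B h ^ (i.val + 1) + (h - 1) * B h ^ (i.val + 1) = N h
  apply Nat.sub_add_cancel
  unfold N
  have := Nat.mul_le_mul_left (h - 1) (le_S h i)
  omega

/-! ### Monomials in the powers -/

/-- the monomials of the power `l` -/
def In (h l : ℕ) (m : Fin 8 →₀ ℕ) : Prop :=
  l * D h + 1 ≤ m 6 + m 7 ∨ (m 6 + m 7 = l * D h ∧
    ∃ c : Ix → ℕ, ∑ γ, c γ = l ∧ ∑ γ, c γ * ex h γ = m 6 ∧ ∑ γ, c γ • xp γ ≤ m)

/-- a unit vector -/
def sgl (γ : Ix) (δ : Ix) : ℕ := if δ = γ then 1 else 0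

lemma exists_sub {c : Ix → ℕ} {γ : Ix} (h : 1 ≤ c γ) : ∃ c' : Ix → ℕ, c = c' + sgl γ := by
  refine ⟨fun δ => c δ - sgl γ δ, ?_⟩
  funext δ
  rw [Pi.add_apply]
  unfold sgl
  split_ifs with hδ
  · subst hδ
    omega
  · omega

lemma sum_single (γ : Ix) (c : Ix → ℕ) : ∑ δ, (c + sgl γ) δ = ∑ δ, c δ + 1 := by
  simp only [Pi.add_apply, sum_add_distrib, sgl, Finset.sum_ite_eq', mem_univ, if_true]

lemma sum_single_mul (γ : Ix) (c e : Ix → ℕ) :
    ∑ δ, (c + sgl γ) δ * e δ = ∑ δ, c δ * e δ + e γ := by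
  simp only [Pi.add_apply, add_mul, sum_add_distrib, sgl, ite_mul, one_mul, zero_mul,
    Finset.sum_ite_eq', mem_univ, if_true]

lemma sum_single_smul (γ : Ix) (c : Ix → ℕ) :
    ∑ δ, (c + sgl γ) δ • xp δ = ∑ δ, c δ • xp δ + xp γ := by
  simp only [Pi.add_apply, add_smul, sum_add_distrib, sgl, ite_smul, one_smul, zero_smul,
    Finset.sum_ite_eq', mem_univ, if_true]

lemma sum_xp_apply (c : Ix → ℕ) (i : Fin 8) : (∑ δ, c δ • xp δ) i = ∑ δ, c δ * xp δ i := by
  rw [Finsupp.finsetSum_apply]
  rfl

lemma sum_xp6 (c : Ix → ℕ) : (∑ δ, c δ • xp δ) 6 = 0 ∧ (∑ δ, c δ • xp δ) 7 = 0 := by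
  rw [sum_xp_apply, sum_xp_apply]
  constructor
  · exact Finset.sum_eq_zero fun δ _ => by rw [(xp6 δ).1, mul_zero]
  · exact Finset.sum_eq_zero fun δ _ => by rw [(xp6 δ).2, mul_zero]

lemma In_succ {h : ℕ} (hh : 1 ≤ h) (l : ℕ) (m : Fin 8 →₀ ℕ) :
    In h (l + 1) m ↔ ∃ g ∈ G h, g ≤ m ∧ In h l (m - g) := by
  have hD := D_pos hh
  constructor
  · rintro (h1 | ⟨h1, c, hc1, hc2, hc3⟩)
    · -- large degree
      rcases Nat.eq_zero_or_pos l with rfl | hl
      · refine ⟨big h (min (m 6) (D h + 1)), mem_G.2 (Or.inr ⟨_, min_le_right _ _, rfl⟩), ?_, ?_⟩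
        · intro i
          by_cases h6 : i = 6
          · subst h6
            rw [big6]
            exact min_le_left _ _
          · by_cases h7 : i = 7
            · subst h7
              rw [big7]
              rcases min_cases (m 6) (D h + 1) with ⟨h3, _⟩ | ⟨h3, _⟩
              · rw [h3]; omega
              · rw [h3]; omega
            · rw [big_x h _ h6 h7]
              exact Nat.zero_le _
        · by_cases h3 : 1 ≤ (m - big h (min (m 6) (D h + 1))) 6 + (m - big h (min (m 6) (D h + 1))) 7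
          · left
            omega
          · right
            refine ⟨by omega, 0, by simp, ?_, ?_⟩
            · simp only [Pi.zero_apply, zero_mul, sum_const_zero]
              omega
            · simp
      · have h2 : 1 ≤ l := hl
        have h3 : (l + 1) * D h = l * D h + D h := by ring
        have h4 : D h ≤ l * D h := Nat.le_mul_of_pos_left _ hl
        by_cases h5 : D h ≤ m 6
        · refine ⟨gen h (Sum.inr (Sum.inr true)), mem_G.2 (Or.inl ⟨_, rfl⟩), ?_, Or.inl ?_⟩
          · intro i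
            by_cases h6 : i = 6
            · subst h6
              rw [gen6]
              exact h5
            · by_cases h7 : i = 7
              · subst h7
                rw [gen7]
                change D h - D h ≤ _
                omega
              · rw [gen_x h _ h6 h7]
                exact Nat.zero_le _
          · rw [Finsupp.tsub_apply, Finsupp.tsub_apply, gen6, gen7]
            change l * D h + 1 ≤ m 6 - D h + (m 7 - (D h - D h))
            omega
        · refine ⟨gen h (Sum.inr (Sum.inr false)), mem_G.2 (Or.inl ⟨_, rfl⟩), ?_, Or.inl ?_⟩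
          · intro i
            by_cases h6 : i = 6
            · subst h6
              rw [gen6]
              exact Nat.zero_le _
            · by_cases h7 : i = 7
              · subst h7
                rw [gen7]
                change D h - 0 ≤ _
                omega
              · rw [gen_x h _ h6 h7]
                exact Nat.zero_le _
          · rw [Finsupp.tsub_apply, Finsupp.tsub_apply, gen6, gen7]
            change l * D h + 1 ≤ m 6 - 0 + (m 7 - (D h - 0))
            omega
    · -- exact degree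
      have h2 : ∃ γ, 1 ≤ c γ := by
        by_contra hcon
        push Not at hcon
        have : ∑ γ, c γ = 0 := Finset.sum_eq_zero fun γ _ => by
          have := hcon γ
          omega
        omega
      obtain ⟨γ, hγ⟩ := h2
      obtain ⟨c', rfl⟩ := exists_sub hγ
      rw [sum_single] at hc1
      rw [sum_single_mul] at hc2
      rw [sum_single_smul] at hc3
      have hexD : ∑ δ, c' δ * ex h δ ≤ l * D h := by
        have h3 : ∑ δ, c' δ * ex h δ ≤ ∑ δ, c' δ * D h :=
          Finset.sum_le_sum fun δ _ => Nat.mul_le_mul_left _ (ex_le hh δ)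
        rw [← Finset.sum_mul] at h3
        have h4 : ∑ δ, c' δ = l := by omega
        rwa [h4] at h3
      have he := ex_le hh γ
      have h3 : (l + 1) * D h = l * D h + D h := by ring
      refine ⟨gen h γ, mem_G.2 (Or.inl ⟨_, rfl⟩), ?_, Or.inr ⟨?_, c', ?_, ?_, ?_⟩⟩
      · intro i
        by_cases h6 : i = 6
        · subst h6
          rw [gen6]
          omega
        · by_cases h7 : i = 7
          · subst h7
            rw [gen7]
            omega
          · rw [gen_x h _ h6 h7]
            have := hc3 i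
            rw [Finsupp.add_apply] at this
            omega
      · rw [Finsupp.tsub_apply, Finsupp.tsub_apply, gen6, gen7]
        omega
      · omega
      · rw [Finsupp.tsub_apply, gen6]
        omega
      · intro i
        have h8 := hc3 i
        rw [Finsupp.add_apply] at h8
        rw [Finsupp.tsub_apply]
        by_cases h6 : i = 6
        · subst h6
          rw [(sum_xp6 c').1]
          exact Nat.zero_le _
        · by_cases h7 : i = 7
          · subst h7
            rw [(sum_xp6 c').2]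
            exact Nat.zero_le _
          · rw [gen_x h _ h6 h7]
            omega
  · rintro ⟨g, hg, hgm, hI⟩
    have h3 : (l + 1) * D h = l * D h + D h := by ring
    have hg6 := hgm 6
    have hg7 := hgm 7
    rcases mem_G.1 hg with ⟨γ, rfl⟩ | ⟨p, hp, rfl⟩
    · have he := ex_le hh γ
      rw [gen6] at hg6
      rw [gen7] at hg7
      rcases hI with h1 | ⟨h1, c, hc1, hc2, hc3⟩
      · left
        rw [Finsupp.tsub_apply, Finsupp.tsub_apply, gen6, gen7] at h1
        omega
      · right
        rw [Finsupp.tsub_apply, Finsupp.tsub_apply, gen6, gen7] at h1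
        rw [Finsupp.tsub_apply, gen6] at hc2
        refine ⟨by omega, c + sgl γ, ?_, ?_, ?_⟩
        · rw [sum_single, hc1]
        · rw [sum_single_mul]
          omega
        · rw [sum_single_smul]
          intro i
          have h8 := hc3 i
          have h9 := hgm i
          rw [Finsupp.tsub_apply] at h8
          rw [Finsupp.add_apply]
          by_cases h6 : i = 6
          · subst h6
            rw [(sum_xp6 c).1, (xp6 γ).1]
            exact Nat.zero_le _
          · by_cases h7 : i = 7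
            · subst h7
              rw [(sum_xp6 c).2, (xp6 γ).2]
              exact Nat.zero_le _
            · rw [gen_x h _ h6 h7] at h8 h9
              omega
    · left
      rw [big6] at hg6
      rw [big7] at hg7
      have h4 : l * D h ≤ (m - big h p) 6 + (m - big h p) 7 := by
        rcases hI with h1 | ⟨h1, -⟩
        · omega
        · omega
      rw [Finsupp.tsub_apply, Finsupp.tsub_apply, big6, big7] at h4
      omega

theorem mem_iff (K : Type*) [Field K] {h : ℕ} (hh : 1 ≤ h) (l : ℕ) (m : Fin 8 →₀ ℕ) :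
    monomial m (1 : K) ∈ monIdeal K (G h) ^ l ↔ In h l m := by
  induction l generalizing m with
  | zero =>
    constructor
    · intro _
      by_cases h3 : 1 ≤ m 6 + m 7
      · left
        omega
      · right
        refine ⟨by omega, 0, by simp, ?_, ?_⟩
        · simp only [Pi.zero_apply, zero_mul, sum_const_zero]
          omega
        · simp
    · intro _
      rw [pow_zero, Ideal.one_eq_top]
      exact Submodule.mem_top
  | succ l ih =>
    rw [mem_pow_succ, In_succ hh]
    constructor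
    · rintro ⟨g, hg, hgm, h1⟩
      exact ⟨g, hg, hgm, (ih _).1 h1⟩
    · rintro ⟨g, hg, hgm, h1⟩
      exact ⟨g, hg, hgm, (ih _).2 h1⟩

end Q36.FD
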