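import Pool.Agent.Q36.FD.Low

set_option autoImplicit false

/-!
The powers from `h` on: the ideal of the projective plane appears as a coefficient ideal.
-/

namespace Q36.FD

open Finset MvPolynomial Pool.Agent.Q14.Kos Pool.Agent.H677R3.EdgeReg

/-- the triangles -/
def trg : Fin 10 → Finset (Fin 8) :=
  ![{0, 1, 2}, {0, 2, 3}, {0, 3, 4}, {0, 4, 5}, {0, 1, 5}, {1, 2, 4}, {2, 3, 5}, {1, 3, 4},
    {2, 4, 5}, {1, 3, 5}]

/-- the projective plane with six vertices -/
def RP : Set (Finset (Fin 8)) := {T | 6 ∉ T ∧ 7 ∉ T ∧ ∃ i, Disjoint (tri i) T}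

/-- the multidegree -/
noncomputable def aa (h l : ℕ) : Fin 8 →₀ ℕ :=
  sqf {0, 1, 2, 3, 4, 5} + Finsupp.single 6 (N h) + Finsupp.single 7 (l * D h - N h)

lemma aa6 (h l : ℕ) : aa h l 6 = N h := by
  unfold aa
  rw [Finsupp.add_apply, Finsupp.add_apply, sqf_apply]
  simp

lemma aa7 (h l : ℕ) : aa h l 7 = l * D h - N h := by
  unfold aa
  rw [Finsupp.add_apply, Finsupp.add_apply, sqf_apply]
  simp

lemma aax (h l : ℕ) {i : Fin 8} (h6 : i ≠ 6) (h7 : i ≠ 7) : aa h l i = 1 := by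
  unfold aa
  rw [Finsupp.add_apply, Finsupp.add_apply, Finsupp.single_eq_of_ne h6,
    Finsupp.single_eq_of_ne h7, sqf_apply]
  have : i ∈ ({0, 1, 2, 3, 4, 5} : Finset (Fin 8)) := by
    revert i
    decide
  rw [if_pos this, add_zero, add_zero]

lemma even_B (h : ℕ) : Even (B h) := ⟨h ^ 2, by unfold B; ring⟩

lemma value_odd {h : ℕ} (c : Ix → ℕ) (hc : ∑ γ, c γ * ex h γ = N h) : ∃ i, 1 ≤ c (Sum.inl i) := by
  by_contra hcon
  push Not at hcon
  have h0 : ∀ i, c (Sum.inl i) = 0 := fun i => by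
    have := hcon i
    omega
  rw [value] at hc
  have h1 : ∑ i, c (Sum.inl i) = 0 := Finset.sum_eq_zero fun i _ => h0 i
  rw [h1, zero_add] at hc
  have he := even_B h
  have h2 : Even (∑ j : Fin 10, (c (Sum.inr (Sum.inl j)) + (h - 1) * (0 - c (Sum.inl j))) *
      B h ^ (j.val + 1) + c (Sum.inr (Sum.inr true)) * B h ^ 11) := by
    refine Even.add (Finset.even_sum _ fun j _ => ?_) ?_
    · exact (he.pow_of_ne_zero (by omega)).mul_left _
    · exact (he.pow_of_ne_zero (by omega)).mul_left _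
  rw [hc] at h2
  unfold N at h2
  have h3 : Even ((h - 1) * S h) := by
    refine Even.mul_left ?_ _
    unfold S
    exact Finset.even_sum _ fun j _ => he.pow_of_ne_zero (by omega)
  rw [add_comm, Nat.even_add_one] at h2
  exact h2 h3

/-- the representation of `N` -/
def rp (h l : ℕ) (i : Fin 10) : Ix → ℕ
  | Sum.inl j => if j = i then 1 else 0
  | Sum.inr (Sum.inl j) => if j = i then h - 1 else 0
  | Sum.inr (Sum.inr false) => l - h
  | Sum.inr (Sum.inr true) => 0

lemma rp_sum {h l : ℕ} (hh : 1 ≤ h) (hl : h ≤ l) (i : Fin 10) : ∑ γ, rp h l i γ = l := by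
  rw [sum_ix]
  simp only [rp, Finset.sum_ite_eq', mem_univ, if_true]
  omega

lemma rp_ex {h l : ℕ} (i : Fin 10) : ∑ γ, rp h l i γ * ex h γ = N h := by
  rw [sum_ix]
  simp only [rp, ite_mul, one_mul, zero_mul, Finset.sum_ite_eq', mem_univ, if_true]
  rw [← ex_inl i]
  change ex h (Sum.inl i) + ((h - 1) * B h ^ (i.val + 1) + (0 + (l - h) * 0)) = _
  ring

lemma rp_xp {h l : ℕ} (i : Fin 10) : ∑ γ, rp h l i γ • xp γ = sqf (tri i) := by
  rw [sum_xp_eq]
  simp only [rp, ite_smul, one_smul, zero_smul, Finset.sum_ite_eq', mem_univ, if_true]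

lemma N_le {h : ℕ} (hh : 1 ≤ h) : N h ≤ D h := S_le hh

lemma high_KX (K : Type*) [Field K] {h l : ℕ} (hh : 1 ≤ h) (hl : h ≤ l) :
    KX (monIdeal K (G h) ^ l) (aa h l) = RP := by
  have hl1 : 1 ≤ l := hh.trans hl
  have hND : N h ≤ l * D h := (N_le hh).trans (Nat.le_mul_of_pos_left _ hl1)
  have hD := D_pos hh
  ext T
  change (sqf T ≤ aa h l ∧ monomial (aa h l - sqf T) (1 : K) ∈ monIdeal K (G h) ^ l) ↔ _
  rw [mem_iff K hh, sqf_le_iff]
  constructor
  · rintro ⟨h1, h2⟩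
    have h6 : 6 ∉ T := by
      intro h6
      have h3 := h1 6 h6
      rw [aa6] at h3
      have h4 : (aa h l - sqf T) 6 + (aa h l - sqf T) 7 < l * D h := by
        rw [Finsupp.tsub_apply, Finsupp.tsub_apply, aa6, aa7, sqf_apply, if_pos h6]
        omega
      rcases h2 with h2 | ⟨h2, -⟩ <;> omega
    have h7 : 7 ∉ T := by
      intro h7
      have h3 := h1 7 h7
      rw [aa7] at h3
      have h4 : (aa h l - sqf T) 6 + (aa h l - sqf T) 7 < l * D h := by
        rw [Finsupp.tsub_apply, Finsupp.tsub_apply, aa6, aa7, sqf_apply, sqf_apply, if_pos h7]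
        omega
      rcases h2 with h2 | ⟨h2, -⟩ <;> omega
    refine ⟨h6, h7, ?_⟩
    have e6 : (aa h l - sqf T) 6 = N h := by
      rw [Finsupp.tsub_apply, aa6, sqf_apply, if_neg h6, Nat.sub_zero]
    have e7 : (aa h l - sqf T) 7 = l * D h - N h := by
      rw [Finsupp.tsub_apply, aa7, sqf_apply, if_neg h7, Nat.sub_zero]
    rcases h2 with h2 | ⟨-, c, hc1, hc2, hc3⟩
    · rw [e6, e7] at h2
      omega
    · rw [e6] at hc2
      obtain ⟨i, hi⟩ := value_odd c hc2
      refine ⟨i, ?_⟩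
      rw [Finset.disjoint_left]
      intro x hx hxT
      have h3 := hc3 x
      have x6 : x ≠ 6 := fun h => h6 (h ▸ hxT)
      have x7 : x ≠ 7 := fun h => h7 (h ▸ hxT)
      rw [Finsupp.tsub_apply, aax h l x6 x7, sqf_apply, if_pos hxT, sum_xp_eq,
        Finsupp.finsetSum_apply] at h3
      have h4 : (c (Sum.inl i) • sqf (tri i)) x ≤ ∑ i, (c (Sum.inl i) • sqf (tri i)) x :=
        Finset.single_le_sum (f := fun i => (c (Sum.inl i) • sqf (tri i)) x)
          (fun _ _ => Nat.zero_le _) (mem_univ i)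
      rw [Finsupp.smul_apply, sqf_apply, if_pos hx, smul_eq_mul, mul_one] at h4
      omega
  · rintro ⟨h6, h7, i, hi⟩
    have h1 : leT (aa h l) T := by
      intro x hx
      rw [aax h l (fun h => h6 (h ▸ hx)) (fun h => h7 (h ▸ hx))]
    have e6 : (aa h l - sqf T) 6 = N h := by
      rw [Finsupp.tsub_apply, aa6, sqf_apply, if_neg h6, Nat.sub_zero]
    have e7 : (aa h l - sqf T) 7 = l * D h - N h := by
      rw [Finsupp.tsub_apply, aa7, sqf_apply, if_neg h7, Nat.sub_zero]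
    refine ⟨h1, Or.inr ⟨?_, rp h l i, rp_sum hh hl i, ?_, ?_⟩⟩
    · rw [e6, e7]
      omega
    · rw [e6, rp_ex]
    · rw [rp_xp]
      intro x
      rw [sqf_apply]
      split_ifs with hx
      · have x6 : x ≠ 6 := fun h => (tri_sub i).1 (h ▸ hx)
        have x7 : x ≠ 7 := fun h => (tri_sub i).2 (h ▸ hx)
        rw [Finsupp.tsub_apply, aax h l x6 x7, sqf_apply,
          if_neg (fun hxT => (Finset.disjoint_left.1 hi) hx hxT)]
      · exact Nat.zero_le _

/-! ### The homology of the projective plane -/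

lemma RP_card : ∀ T : Finset (Fin 8), 6 ∉ T → 7 ∉ T → (∃ i, Disjoint (tri i) T) → T.card ≤ 3 := by
  decide +kernel

lemma RP_three : ∀ T : Finset (Fin 8), 6 ∉ T → 7 ∉ T → (∃ i, Disjoint (tri i) T) → T.card = 3 →
    ∃ i, T = trg i := by
  decide +kernel

lemma trg_mem : ∀ i, 6 ∉ trg i ∧ 7 ∉ trg i ∧ (∃ j, Disjoint (tri j) (trg i)) ∧
    (trg i).card = 3 := by
  decide +kernel

lemma trg_inj : ∀ i j, trg i = trg j → i = j := by
  decide +kernel

/-- the incidence numbers -/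
def M (e : Finset (Fin 8)) (i : Fin 10) : ℤ :=
  ∑ j ∈ eᶜ, if insert j e = trg i then (-1) ^ (e.filter (· < j)).card else 0

section

variable (k : Type*) [Field k]

/-- the chain with given values -/
def ch (v : Fin 10 → k) (T : Finset (Fin 8)) : k := ∑ i, if T = trg i then v i else 0

lemma ch_trg (v : Fin 10 → k) (i : Fin 10) : ch k v (trg i) = v i := by
  unfold ch
  rw [Finset.sum_eq_single i]
  · rw [if_pos rfl]
  · intro j _ hj
    rw [if_neg fun h => hj (trg_inj _ _ h).symm]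
  · intro h
    exact absurd (mem_univ _) h

lemma bd_ch (v : Fin 10 → k) (e : Finset (Fin 8)) :
    bd k (ch k v) e = ∑ i, (M e i : k) * v i := by
  rw [bd_apply]
  unfold ch
  simp only [Finset.mul_sum]
  rw [Finset.sum_comm]
  refine Finset.sum_congr rfl fun i _ => ?_
  unfold M
  rw [Int.cast_sum, Finset.sum_mul]
  refine Finset.sum_congr rfl fun j _ => ?_
  split_ifs with h
  · unfold sg
    push_cast
    rfl
  · simp

lemma ch_mem (v : Fin 10 → k) : ch k v ∈ CC k RP 3 := by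
  intro T hT
  unfold ch at hT
  obtain ⟨i, _, hi⟩ := Finset.exists_ne_zero_of_sum_ne_zero hT
  have h1 : T = trg i := by
    by_contra h
    exact hi (if_neg h)
  obtain ⟨h2, h3, h4, h5⟩ := trg_mem i
  rw [h1]
  exact ⟨⟨h2, h3, h4⟩, h5⟩

lemma exists_ch {c : Finset (Fin 8) → k} (hc : c ∈ CC k RP 3) : c = ch k fun i => c (trg i) := by
  funext T
  by_cases h : c T = 0
  · rw [h]
    symm
    refine Finset.sum_eq_zero fun i _ => ?_
    split_ifs with h1
    · change c (trg i) = 0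
      rw [← h1, h]
    · rfl
  · obtain ⟨⟨h1, h2, h3⟩, h4⟩ := hc T h
    obtain ⟨i, hi⟩ := RP_three T h1 h2 h3 h4
    rw [hi, ch_trg]

lemma CC_four : CC k RP 4 = ⊥ := by
  rw [eq_bot_iff]
  intro c hc
  rw [Submodule.mem_bot]
  funext T
  by_contra h
  obtain ⟨⟨h1, h2, h3⟩, h4⟩ := hc T h
  have := RP_card T h1 h2 h3
  omega

lemma M_even : ∀ e : Finset (Fin 8), ∃ r : ℤ, ∑ i, M e i = 2 * r := by
  have h : ∀ e : Finset (Fin 8), (∑ i, M e i) % 2 = 0 := by decide +kernel
  intro e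
  exact ⟨(∑ i, M e i) / 2, by have := h e; omega⟩

lemma cb_two [CharP k 2] : cb k RP 3 ≠ 0 := by
  unfold cb
  have hB : BC k RP 3 = ⊥ := by
    unfold BC
    rw [CC_four, Submodule.map_bot]
  have hz : ch k (fun _ => 1) ∈ ZC k RP 3 := by
    refine ⟨ch_mem k _, ?_⟩
    change bd k (ch k fun _ => 1) = 0
    funext e
    rw [bd_ch]
    simp only [mul_one]
    obtain ⟨r, hr⟩ := M_even e
    rw [← Int.cast_sum, hr]
    push_cast
    rw [show (2 : k) = 0 from CharTwo.two_eq_zero, zero_mul]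
    rfl
  have hne : ch k (fun _ => 1) ≠ 0 := by
    intro h
    have := congrFun h (trg 0)
    rw [ch_trg] at this
    exact one_ne_zero this
  rw [hB]
  have : Nontrivial (ZC k RP 3 ⧸ (⊥ : Submodule k (Finset (Fin 8) → k)).comap (ZC k RP 3).subtype) := by
    refine ⟨⟨Submodule.Quotient.mk ⟨_, hz⟩, 0, fun h => hne ?_⟩⟩
    rw [Submodule.Quotient.mk_eq_zero, Submodule.mem_comap, Submodule.mem_bot] at h
    exact h
  have := Module.finrank_pos (R := k)
    (M := ZC k RP 3 ⧸ (⊥ : Submodule k (Finset (Fin 8) → k)).comap (ZC k RP 3).subtype)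
  omega

lemma cb_ne_two (h2 : (2 : k) ≠ 0) : cb k RP 3 = 0 := by
  refine cb_eq_zero fun c hc => ?_
  have h1 : c = ch k fun i => c (trg i) := exists_ch k hc.1
  set v : Fin 10 → k := fun i => c (trg i) with hv
  have hb : ∀ e : Finset (Fin 8), ∑ i, (M e i : k) * v i = 0 := by
    intro e
    rw [← bd_ch, ← h1]
    have : bd k c = 0 := hc.2
    rw [this]
    rfl
  have m01 : ∀ i, M {0, 1} i = (![1, 0, 0, 0, 1, 0, 0, 0, 0, 0] : Fin 10 → ℤ) i := by
    decide +kernel
  have m02 : ∀ i, M {0, 2} i = (![-1, 1, 0, 0, 0, 0, 0, 0, 0, 0] : Fin 10 → ℤ) i := by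
    decide +kernel
  have m03 : ∀ i, M {0, 3} i = (![0, -1, 1, 0, 0, 0, 0, 0, 0, 0] : Fin 10 → ℤ) i := by
    decide +kernel
  have m04 : ∀ i, M {0, 4} i = (![0, 0, -1, 1, 0, 0, 0, 0, 0, 0] : Fin 10 → ℤ) i := by
    decide +kernel
  have m12 : ∀ i, M {1, 2} i = (![1, 0, 0, 0, 0, 1, 0, 0, 0, 0] : Fin 10 → ℤ) i := by
    decide +kernel
  have m13 : ∀ i, M {1, 3} i = (![0, 0, 0, 0, 0, 0, 0, 1, 0, 1] : Fin 10 → ℤ) i := by
    decide +kernel
  have m14 : ∀ i, M {1, 4} i = (![0, 0, 0, 0, 0, -1, 0, -1, 0, 0] : Fin 10 → ℤ) i := by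
    decide +kernel
  have m23 : ∀ i, M {2, 3} i = (![0, 1, 0, 0, 0, 0, 1, 0, 0, 0] : Fin 10 → ℤ) i := by
    decide +kernel
  have m24 : ∀ i, M {2, 4} i = (![0, 0, 0, 0, 0, 1, 0, 0, 1, 0] : Fin 10 → ℤ) i := by
    decide +kernel
  have m34 : ∀ i, M {3, 4} i = (![0, 0, 1, 0, 0, 0, 0, 1, 0, 0] : Fin 10 → ℤ) i := by
    decide +kernel
  have e01 := hb {0, 1}
  have e02 := hb {0, 2}
  have e03 := hb {0, 3}
  have e04 := hb {0, 4}
  have e12 := hb {1, 2}
  have e13 := hb {1, 3}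
  have e14 := hb {1, 4}
  have e23 := hb {2, 3}
  have e24 := hb {2, 4}
  have e34 := hb {3, 4}
  have ex : ∀ f : Fin 10 → k, ∑ i, f i = f 0 + f 1 + f 2 + f 3 + f 4 + f 5 + f 6 + f 7 + f 8 +
      f 9 := by
    intro f
    simp only [Fin.sum_univ_succ, Fin.sum_univ_zero, add_zero]
    simp only [← add_assoc]
    rfl
  rw [ex] at e01 e02 e03 e04 e12 e13 e14 e23 e24 e34
  simp only [m01, m02, m03, m04, m12, m13, m14, m23, m24, m34, Matrix.cons_val] at e01 e02 e03 e04 e12 e13 e14 e23 e24 e34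
  push_cast at e01 e02 e03 e04 e12 e13 e14 e23 e24 e34
  have v0 : v 0 = 0 := by
    have : (2 : k) * v 0 = 0 := by linear_combination -e02 - e03 + e12 + e14 + e34
    exact (mul_eq_zero.1 this).resolve_left h2
  have v1 : v 1 = 0 := by linear_combination e02 + v0
  have v2 : v 2 = 0 := by linear_combination e03 + v1
  have v3 : v 3 = 0 := by linear_combination e04 + v2
  have v4 : v 4 = 0 := by linear_combination e01 - v0
  have v5 : v 5 = 0 := by linear_combination e12 - v0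
  have v7 : v 7 = 0 := by linear_combination -e14 - v5
  have v6 : v 6 = 0 := by linear_combination e23 - v1
  have v8 : v 8 = 0 := by linear_combination e24 - v5
  have v9 : v 9 = 0 := by linear_combination e13 - v7
  have hv0 : v = fun _ => 0 := by
    funext i
    fin_cases i
    · exact v0
    · exact v1
    · exact v2
    · exact v3
    · exact v4
    · exact v5
    · exact v6
    · exact v7
    · exact v8
    · exact v9
  have hc0 : c = 0 := by
    rw [h1, hv0]
    funext T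
    refine Finset.sum_eq_zero fun i _ => ?_
    split_ifs <;> rfl
  rw [hc0]
  exact Submodule.zero_mem _

end

end Q36.FD
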