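import Pool.Agent.Q36.FD.Comb

set_option autoImplicit false

/-!
Multigraded Betti numbers of ideals of a polynomial ring, from the Koszul complex.
-/

namespace Q36.FD

open Finset MvPolynomial Pool.Agent.Q14.Kos Pool.Agent.H677R3.EdgeReg

variable {n : ℕ}

/-- The exponent of the product of the variables with index in `T`. -/
noncomputable def sqf (T : Finset (Fin n)) : Fin n →₀ ℕ := ∑ i ∈ T, Finsupp.single i 1

section

variable {K : Type*} [Field K]

/-- The Koszul differential of `x_1,…,x_n`: a chain is a function `f` assigning to every finite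
set `T` of variables the coefficient `f T` of the basis element `e_T`. -/
noncomputable def koszulD (f : Finset (Fin n) → MvPolynomial (Fin n) K) (T : Finset (Fin n)) :
    MvPolynomial (Fin n) K :=
  ∑ j ∈ Tᶜ, (-1) ^ (T.filter (· < j)).card * (X j * f (insert j T))

lemma koszulD_eq (f : Finset (Fin n) → MvPolynomial (Fin n) K) :
    koszulD f = kd (X : Fin n → MvPolynomial (Fin n) K) f := by
  funext T
  rw [koszulD, kd_apply]
  refine Finset.sum_congr rfl fun j _ => ?_
  rw [smul_eq_mul, mul_assoc]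
  rfl

/-- The chains of homological degree `i` and multidegree `a` of the Koszul complex of `x_1,…,x_n`
with coefficients in the ideal `J`: the coefficient of `e_T` lies in `J`, is zero if `T` does not have
`i` elements, and has no monomials besides `x^(a - T)`. -/
noncomputable def chains (J : Ideal (MvPolynomial (Fin n) K)) (i : ℕ) (a : Fin n →₀ ℕ) :
    Submodule K (Finset (Fin n) → MvPolynomial (Fin n) K) where
  carrier := {f | ∀ T, f T ∈ J ∧ (T.card ≠ i → f T = 0) ∧
    ∀ m, coeff m (f T) ≠ 0 → m + sqf T = a}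
  add_mem' := by
    intro f g hf hg T
    refine ⟨J.add_mem (hf T).1 (hg T).1, fun h => by
      rw [Pi.add_apply, (hf T).2.1 h, (hg T).2.1 h, add_zero], fun m hm => ?_⟩
    by_cases h : coeff m (f T) = 0
    · refine (hg T).2.2 m fun h0 => hm ?_
      rw [Pi.add_apply, coeff_add, h, h0, add_zero]
    · exact (hf T).2.2 m h
  zero_mem' := fun T => ⟨J.zero_mem, fun _ => rfl, fun m hm => absurd (coeff_zero m) hm⟩
  smul_mem' := by
    intro c f hf T
    refine ⟨?_, fun h => by rw [Pi.smul_apply, (hf T).2.1 h, smul_zero], fun m hm => ?_⟩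
    · rw [Pi.smul_apply, smul_eq_C_mul]
      exact J.mul_mem_left _ (hf T).1
    · refine (hf T).2.2 m fun h0 => hm ?_
      rw [Pi.smul_apply, coeff_smul, h0, smul_zero]

/-- The cycles of homological degree `i` and multidegree `a`. -/
noncomputable def cycles (J : Ideal (MvPolynomial (Fin n) K)) (i : ℕ) (a : Fin n →₀ ℕ) :
    Submodule K (Finset (Fin n) → MvPolynomial (Fin n) K) where
  carrier := {f | f ∈ chains J i a ∧ ∀ T, koszulD f T = 0}
  add_mem' := by
    rintro f g ⟨hf, hf'⟩ ⟨hg, hg'⟩
    refine ⟨Submodule.add_mem _ hf hg, fun T => ?_⟩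
    rw [koszulD_eq] at hf' hg' ⊢
    rw [map_add, Pi.add_apply, hf', hg', add_zero]
  zero_mem' := ⟨Submodule.zero_mem _, fun T => by rw [koszulD_eq, map_zero]; rfl⟩
  smul_mem' := by
    rintro c f ⟨hf, hf'⟩
    refine ⟨Submodule.smul_mem _ c hf, fun T => ?_⟩
    have hc : c • f = (C c : MvPolynomial (Fin n) K) • f := by
      funext T
      rw [Pi.smul_apply, Pi.smul_apply, smul_eq_mul, ← smul_eq_C_mul]
    rw [koszulD_eq] at hf' ⊢
    rw [hc, map_smul, Pi.smul_apply, hf', smul_zero]

/-- The boundaries of homological degree `i` and multidegree `a`. -/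
noncomputable def boundaries (J : Ideal (MvPolynomial (Fin n) K)) (i : ℕ) (a : Fin n →₀ ℕ) :
    Submodule K (Finset (Fin n) → MvPolynomial (Fin n) K) where
  carrier := {f | ∃ g ∈ chains J (i + 1) a, ∀ T, koszulD g T = f T}
  add_mem' := by
    rintro f f' ⟨g, h1, h3⟩ ⟨g', h1', h3'⟩
    refine ⟨g + g', Submodule.add_mem _ h1 h1', fun T => ?_⟩
    rw [koszulD_eq] at h3 h3' ⊢
    rw [map_add, Pi.add_apply, h3, h3', Pi.add_apply]
  zero_mem' := ⟨0, Submodule.zero_mem _, fun T => by rw [koszulD_eq, map_zero]⟩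
  smul_mem' := by
    rintro c f ⟨g, h1, h3⟩
    have hc : ∀ f : Finset (Fin n) → MvPolynomial (Fin n) K,
        c • f = (C c : MvPolynomial (Fin n) K) • f := by
      intro f
      funext T
      rw [Pi.smul_apply, Pi.smul_apply, smul_eq_mul, ← smul_eq_C_mul]
    refine ⟨c • g, Submodule.smul_mem _ c h1, fun T => ?_⟩
    rw [koszulD_eq] at h3 ⊢
    rw [hc, hc, map_smul, Pi.smul_apply, Pi.smul_apply, h3]

/-- The multigraded Betti number `β_{i,a}(J) = dim_K Tor_i(J, K)_a`, computed by the Koszul
complex. -/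
noncomputable def betti (J : Ideal (MvPolynomial (Fin n) K)) (i : ℕ) (a : Fin n →₀ ℕ) : ℕ :=
  Module.finrank K (cycles J i a ⧸ (boundaries J i a).comap (cycles J i a).subtype)

variable (K) in
/-- The ideal generated over `K` by the monomials with exponents in `G`. -/
noncomputable def monIdeal (G : Finset (Fin n →₀ ℕ)) : Ideal (MvPolynomial (Fin n) K) :=
  Ideal.span ((fun s => monomial s (1 : K)) '' (G : Set (Fin n →₀ ℕ)))

/-! ### The upper Koszul complex -/

/-- the upper Koszul complex -/
def KX (J : Ideal (MvPolynomial (Fin n) K)) (a : Fin n →₀ ℕ) : Set (Finset (Fin n)) :=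
  {T | sqf T ≤ a ∧ monomial (a - sqf T) (1 : K) ∈ J}

lemma sqf_apply (T : Finset (Fin n)) (i : Fin n) : sqf T i = if i ∈ T then 1 else 0 := by
  classical
  unfold sqf
  rw [Finsupp.finsetSum_apply]
  simp [Finsupp.single_apply]

lemma sqf_insert {T : Finset (Fin n)} {j : Fin n} (hj : j ∉ T) :
    sqf (insert j T) = Finsupp.single j 1 + sqf T := by
  unfold sqf
  rw [Finset.sum_insert hj]

lemma sqf_mono {S T : Finset (Fin n)} (h : S ⊆ T) : sqf S ≤ sqf T := by
  intro i
  rw [sqf_apply, sqf_apply]
  split_ifs with h1 h2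
  · exact le_rfl
  · exact absurd (h h1) h2
  · exact Nat.zero_le _
  · exact le_rfl

lemma KX_down (J : Ideal (MvPolynomial (Fin n) K)) (a : Fin n →₀ ℕ) : Down (KX J a) := by
  rintro T ⟨h1, h2⟩ S hST
  have h3 := sqf_mono hST
  refine ⟨h3.trans h1, ?_⟩
  have h4 : a - sqf S = (a - sqf T) + (sqf T - sqf S) := by
    ext i
    have h5 := h1 i
    have h6 := h3 i
    simp only [Finsupp.tsub_apply, Finsupp.add_apply]
    omega
  rw [h4, ← mul_one (1 : K), ← monomial_mul]
  exact J.mul_mem_right _ h2

/-- from scalars to chains of multidegree `a` -/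
noncomputable def up (K : Type*) [Field K] (a : Fin n →₀ ℕ) :
    (Finset (Fin n) → K) →ₗ[K] (Finset (Fin n) → MvPolynomial (Fin n) K) where
  toFun c T := monomial (a - sqf T) (c T)
  map_add' c d := by
    funext T
    simp
  map_smul' r c := by
    funext T
    simp [smul_monomial]

lemma up_apply (a : Fin n →₀ ℕ) (c : Finset (Fin n) → K) (T : Finset (Fin n)) :
    up K a c T = monomial (a - sqf T) (c T) := rfl

lemma up_inj (a : Fin n →₀ ℕ) : Function.Injective (up K a (n := n)) := by
  intro c d h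
  funext T
  have h1 := congrArg (coeff (a - sqf T)) (congrFun h T)
  rwa [up_apply, up_apply, coeff_monomial, coeff_monomial, if_pos rfl, if_pos rfl] at h1

lemma up_mem (J : Ideal (MvPolynomial (Fin n) K)) {i : ℕ} {a : Fin n →₀ ℕ}
    {c : Finset (Fin n) → K} (hc : c ∈ CC K (KX J a) i) : up K a c ∈ chains J i a := by
  intro T
  rw [up_apply]
  by_cases h : c T = 0
  · rw [h, monomial_zero]
    exact ⟨J.zero_mem, fun _ => rfl, fun m hm => absurd (coeff_zero m) hm⟩
  · obtain ⟨⟨h1, h2⟩, h3⟩ := hc T h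
    refine ⟨?_, fun h4 => absurd h3 h4, fun m hm => ?_⟩
    · have : monomial (a - sqf T) (c T) = C (c T) * monomial (a - sqf T) (1 : K) := by
        rw [C_mul_monomial, mul_one]
      rw [this]
      exact J.mul_mem_left _ h2
    · rw [coeff_monomial] at hm
      have h5 : a - sqf T = m := by
        by_contra h6
        exact hm (if_neg h6)
      rw [← h5]
      exact tsub_add_cancel_of_le h1

lemma exists_up (J : Ideal (MvPolynomial (Fin n) K)) {i : ℕ} {a : Fin n →₀ ℕ}
    {f : Finset (Fin n) → MvPolynomial (Fin n) K} (hf : f ∈ chains J i a) :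
    ∃ c ∈ CC K (KX J a) i, up K a c = f := by
  have key : ∀ T, monomial (a - sqf T) (coeff (a - sqf T) (f T)) = f T := by
    intro T
    ext m
    rw [coeff_monomial]
    split_ifs with h
    · rw [h]
    · by_contra h1
      have h2 := (hf T).2.2 m (fun h0 => h1 h0.symm)
      apply h
      rw [← h2, add_tsub_cancel_right]
  refine ⟨fun T => coeff (a - sqf T) (f T), ?_, ?_⟩
  · intro T hT
    have h1 := (hf T).2.2 _ hT
    refine ⟨⟨?_, ?_⟩, ?_⟩
    · rw [← h1]
      exact le_add_self
    · have h2 := J.mul_mem_left (C (coeff (a - sqf T) (f T))⁻¹) (hf T).1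
      rw [← key T, C_mul_monomial] at h2
      have h3 : coeff (a - sqf T) (monomial (a - sqf T) (coeff (a - sqf T) (f T))) ≠ 0 := by
        rwa [key T]
      rwa [key T, inv_mul_cancel₀ hT] at h2
    · by_contra h2
      apply hT
      show coeff (a - sqf T) (f T) = 0
      rw [(hf T).2.1 h2, coeff_zero]
  · funext T
    exact key T

lemma koszulD_up (J : Ideal (MvPolynomial (Fin n) K)) {i : ℕ} {a : Fin n →₀ ℕ}
    {c : Finset (Fin n) → K} (hc : c ∈ CC K (KX J a) i) :
    koszulD (up K a c) = up K a (bd K c) := by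
  rw [koszulD_eq]
  funext T
  rw [kd_apply, up_apply, bd_apply, map_sum]
  refine Finset.sum_congr rfl fun j hj => ?_
  have hj' : j ∉ T := by simpa using hj
  rw [up_apply]
  by_cases h : c (insert j T) = 0
  · rw [h, monomial_zero, smul_zero, mul_zero, monomial_zero]
  · have h1 := (hc _ h).1.1
    have h2 : a - sqf T = Finsupp.single j 1 + (a - sqf (insert j T)) := by
      ext l
      have h3 := h1 l
      rw [sqf_insert hj'] at h3 ⊢
      simp only [Finsupp.tsub_apply, Finsupp.add_apply] at h3 ⊢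
      omega
    have h4 : (sg (MvPolynomial (Fin n) K) j T) = C (sg K j T) := by
      unfold sg
      rw [map_pow, map_neg, map_one]
    rw [h2, smul_eq_mul, h4, mul_assoc, X, monomial_mul, one_mul, C_mul_monomial]

theorem betti_eq_cb (J : Ideal (MvPolynomial (Fin n) K)) (i : ℕ) (a : Fin n →₀ ℕ) :
    betti J i a = cb K (KX J a) i := by
  have hZ : (ZC K (KX J a) i).map (up K a) = cycles J i a := by
    ext f
    constructor
    · rintro ⟨c, ⟨hc, hc'⟩, rfl⟩
      refine ⟨up_mem J hc, fun T => ?_⟩
      have h1 : bd K c = 0 := hc'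
      rw [koszulD_up J hc, h1, map_zero]
      rfl
    · rintro ⟨hf, hf'⟩
      obtain ⟨c, hc, rfl⟩ := exists_up J hf
      refine ⟨c, ⟨hc, ?_⟩, rfl⟩
      rw [koszulD_up J hc] at hf'
      apply up_inj a
      rw [map_zero]
      funext T
      exact hf' T
  have hB : (BC K (KX J a) i).map (up K a) = boundaries J i a := by
    ext f
    constructor
    · rintro ⟨_, ⟨b, hb, rfl⟩, rfl⟩
      refine ⟨up K a b, up_mem J hb, fun T => ?_⟩
      rw [koszulD_up J hb]
    · rintro ⟨g, hg, hg'⟩
      obtain ⟨b, hb, rfl⟩ := exists_up J hg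
      refine ⟨bd K b, ⟨b, hb, rfl⟩, ?_⟩
      rw [koszulD_up J hb] at hg'
      funext T
      exact hg' T
  let e : ZC K (KX J a) i ≃ₗ[K] cycles J i a :=
    (Submodule.equivMapOfInjective (up K a) (up_inj a) (ZC K (KX J a) i)).trans
      (LinearEquiv.ofEq _ _ hZ)
  have he : ∀ x, ((e x : cycles J i a) : Finset (Fin n) → MvPolynomial (Fin n) K) =
      up K a x := fun x => rfl
  unfold betti cb
  symm
  refine LinearEquiv.finrank_eq (Submodule.Quotient.equiv _ _ e ?_)
  ext ⟨f, hf⟩
  rw [Submodule.mem_comap]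
  constructor
  · rintro ⟨x, hx, hx'⟩
    have h1 : up K a x = f := by
      rw [← he]
      exact congrArg Subtype.val hx'
    rw [← hB]
    exact ⟨x, hx, h1⟩
  · intro h
    rw [← hB] at h
    obtain ⟨c, hc, hc'⟩ := h
    have h1 : f = up K a (e.symm ⟨f, hf⟩) := by
      rw [← he]
      simp
    have h2 : ((e.symm ⟨f, hf⟩ : ZC K (KX J a) i) : Finset (Fin n) → K) = c := by
      apply up_inj a
      rw [← h1]
      exact hc'.symm
    refine ⟨e.symm ⟨f, hf⟩, ?_, ?_⟩
    · change ((e.symm ⟨f, hf⟩ : ZC K (KX J a) i) : Finset (Fin n) → K) ∈ BC K (KX J a) i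
      rw [h2]
      exact hc
    · simp

end

end Q36.FD
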