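import Pool.Agent.Q36.FD.Gen

set_option autoImplicit false

/-!
The powers below `h`: all coefficient ideals are principal.
-/

namespace Q36.FD

open Finset MvPolynomial

/-! ### Digits -/

lemma digits (b : ℕ) : ∀ (m : ℕ) (y y' : Fin m → ℕ) (d d' : ℕ), (∀ j, y j < b) →
    (∀ j, y' j < b) → ∑ j, y j * b ^ j.val + d * b ^ m = ∑ j, y' j * b ^ j.val + d' * b ^ m →
    0 < b → y = y' ∧ d = d'
  | 0, y, y', d, d', _, _, h, _ => by
    simp only [Finset.univ_eq_empty, sum_empty, pow_zero, mul_one, zero_add] at h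
    exact ⟨funext fun j => j.elim0, h⟩
  | m + 1, y, y', d, d', hy, hy', h, hb => by
    have e : ∀ (z : Fin (m + 1) → ℕ) (t : ℕ), ∑ j, z j * b ^ j.val + t * b ^ (m + 1) =
        z 0 + b * (∑ j : Fin m, z j.succ * b ^ j.val + t * b ^ m) := by
      intro z t
      rw [Fin.sum_univ_succ, mul_add, Finset.mul_sum]
      simp only [Fin.val_zero, pow_zero, mul_one, Fin.val_succ]
      have : ∀ j : Fin m, z j.succ * b ^ (j.val + 1) = b * (z j.succ * b ^ j.val) := by
        intro j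
        ring
      simp only [this]
      ring
    rw [e, e] at h
    have h0 : y 0 = y' 0 := by
      have h1 := congrArg (· % b) h
      simp only [Nat.add_mul_mod_self_left] at h1
      rwa [Nat.mod_eq_of_lt (hy 0), Nat.mod_eq_of_lt (hy' 0)] at h1
    rw [h0] at h
    have h2 := Nat.eq_of_mul_eq_mul_left hb (Nat.add_left_cancel h)
    obtain ⟨h3, h4⟩ := digits b m (fun j => y j.succ) (fun j => y' j.succ) d d'
      (fun j => hy _) (fun j => hy' _) h2 hb
    refine ⟨?_, h4⟩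
    funext j
    refine Fin.cases h0 (fun j => congrFun h3 j) j

/-! ### Uniqueness of representations -/

lemma sum_ix (f : Ix → ℕ) : ∑ γ, f γ = ∑ i, f (Sum.inl i) + (∑ j, f (Sum.inr (Sum.inl j)) +
    (f (Sum.inr (Sum.inr true)) + f (Sum.inr (Sum.inr false)))) := by
  rw [Fintype.sum_sum_type, Fintype.sum_sum_type, Fintype.sum_bool]

/-- the value in base `B` -/
lemma value {h : ℕ} (c : Ix → ℕ) :
    ∑ γ, c γ * ex h γ = ∑ i, c (Sum.inl i) + ∑ j : Fin 10, (c (Sum.inr (Sum.inl j)) +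
      (h - 1) * (∑ i, c (Sum.inl i) - c (Sum.inl j))) * B h ^ (j.val + 1) +
      c (Sum.inr (Sum.inr true)) * B h ^ 11 := by
  set A := ∑ i, c (Sum.inl i) with hA
  have h1 : ∑ i, c (Sum.inl i) * ex h (Sum.inl i) +
      ∑ i : Fin 10, (h - 1) * c (Sum.inl i) * B h ^ (i.val + 1) = A * N h := by
    rw [hA, Finset.sum_mul, ← Finset.sum_add_distrib]
    refine Finset.sum_congr rfl fun i _ => ?_
    rw [← ex_inl i]
    ring
  have h2 : A * N h = A + ∑ j : Fin 10, (h - 1) * A * B h ^ (j.val + 1) := by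
    unfold N S
    rw [← Finset.mul_sum]
    ring
  have h3 : ∑ j : Fin 10, (c (Sum.inr (Sum.inl j)) + (h - 1) * (A - c (Sum.inl j))) *
      B h ^ (j.val + 1) + ∑ i : Fin 10, (h - 1) * c (Sum.inl i) * B h ^ (i.val + 1) =
      ∑ j : Fin 10, c (Sum.inr (Sum.inl j)) * B h ^ (j.val + 1) +
      ∑ j : Fin 10, (h - 1) * A * B h ^ (j.val + 1) := by
    rw [← Finset.sum_add_distrib, ← Finset.sum_add_distrib]
    refine Finset.sum_congr rfl fun j _ => ?_
    have h4 : c (Sum.inl j) ≤ A :=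
      Finset.single_le_sum (f := fun i => c (Sum.inl i)) (fun _ _ => Nat.zero_le _) (mem_univ j)
    obtain ⟨r, hr⟩ := Nat.exists_eq_add_of_le h4
    have h5 : A - c (Sum.inl j) = r := by omega
    rw [h5, hr]
    ring
  rw [sum_ix]
  have h6 : ∑ j, c (Sum.inr (Sum.inl j)) * ex h (Sum.inr (Sum.inl j)) =
      ∑ j : Fin 10, c (Sum.inr (Sum.inl j)) * B h ^ (j.val + 1) := rfl
  have h7 : c (Sum.inr (Sum.inr true)) * ex h (Sum.inr (Sum.inr true)) =
      c (Sum.inr (Sum.inr true)) * B h ^ 11 := rfl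
  have h8 : c (Sum.inr (Sum.inr false)) * ex h (Sum.inr (Sum.inr false)) = 0 := mul_zero _
  rw [h6, h7, h8]
  omega

lemma unique_aux {h l : ℕ} (hl : l < h) {c c' : Ix → ℕ} (hc : ∑ γ, c γ = l) {j : Fin 10}
    {A : ℕ} (hA : c (Sum.inl j) ≤ A)
    (he : c (Sum.inr (Sum.inl j)) + (h - 1) * (A - c (Sum.inl j)) =
      c' (Sum.inr (Sum.inl j)) + (h - 1) * (A - c' (Sum.inl j))) :
    ¬ c' (Sum.inl j) < c (Sum.inl j) := by
  intro hlt
  obtain ⟨r, hr⟩ := Nat.exists_eq_add_of_lt hlt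
  have h1 : A - c' (Sum.inl j) = (A - c (Sum.inl j)) + (r + 1) := by omega
  rw [h1] at he
  have h2 : c (Sum.inr (Sum.inl j)) = c' (Sum.inr (Sum.inl j)) + (h - 1) * (r + 1) := by
    rw [mul_add] at he
    omega
  have h3 : h - 1 ≤ (h - 1) * (r + 1) := Nat.le_mul_of_pos_right _ (by omega)
  rw [sum_ix] at hc
  have h4 : c (Sum.inl j) ≤ ∑ i, c (Sum.inl i) :=
    Finset.single_le_sum (f := fun i => c (Sum.inl i)) (fun _ _ => Nat.zero_le _) (mem_univ j)
  have h5 : c (Sum.inr (Sum.inl j)) ≤ ∑ i, c (Sum.inr (Sum.inl i)) :=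
    Finset.single_le_sum (f := fun i => c (Sum.inr (Sum.inl i))) (fun _ _ => Nat.zero_le _)
      (mem_univ j)
  omega

lemma rep_unique {h l : ℕ} (hl : l < h) {c c' : Ix → ℕ} (hc : ∑ γ, c γ = l)
    (hc' : ∑ γ, c' γ = l) (he : ∑ γ, c γ * ex h γ = ∑ γ, c' γ * ex h γ) (j : Fin 10) :
    c (Sum.inl j) = c' (Sum.inl j) := by
  have hh : 1 ≤ h := by omega
  have hB := lt_B hh
  rw [value, value] at he
  have hd : ∀ c : Ix → ℕ, ∑ γ, c γ = l → ∑ i, c (Sum.inl i) < B h ∧
      ∀ j : Fin 10, c (Sum.inr (Sum.inl j)) + (h - 1) * (∑ i, c (Sum.inl i) - c (Sum.inl j)) <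
        B h := by
    intro c hc
    rw [sum_ix] at hc
    refine ⟨by omega, fun j => ?_⟩
    have h5 : c (Sum.inr (Sum.inl j)) ≤ ∑ i, c (Sum.inr (Sum.inl i)) :=
      Finset.single_le_sum (f := fun i => c (Sum.inr (Sum.inl i))) (fun _ _ => Nat.zero_le _)
        (mem_univ j)
    have h6 : (h - 1) * (∑ i, c (Sum.inl i) - c (Sum.inl j)) ≤ (h - 1) * l :=
      Nat.mul_le_mul_left _ (by omega)
    have h7 : l + (h - 1) * l = h * l := by
      obtain ⟨g, rfl⟩ : ∃ g, h = g + 1 := ⟨h - 1, by omega⟩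
      rw [Nat.add_sub_cancel]
      ring
    have h8 : h * l < B h := by
      unfold B
      nlinarith
    omega
  obtain ⟨h1, h2⟩ := hd c hc
  obtain ⟨h1', h2'⟩ := hd c' hc'
  have key := digits (B h) 11
    (Fin.cons (∑ i, c (Sum.inl i)) fun j : Fin 10 => c (Sum.inr (Sum.inl j)) +
      (h - 1) * (∑ i, c (Sum.inl i) - c (Sum.inl j)))
    (Fin.cons (∑ i, c' (Sum.inl i)) fun j : Fin 10 => c' (Sum.inr (Sum.inl j)) +
      (h - 1) * (∑ i, c' (Sum.inl i) - c' (Sum.inl j)))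
    (c (Sum.inr (Sum.inr true))) (c' (Sum.inr (Sum.inr true))) ?_ ?_ ?_ (by omega)
  · have k0 := congrFun key.1 0
    rw [Fin.cons_zero, Fin.cons_zero] at k0
    have kj := congrFun key.1 j.succ
    rw [Fin.cons_succ, Fin.cons_succ, k0] at kj
    have hA : c (Sum.inl j) ≤ ∑ i, c' (Sum.inl i) := by
      rw [← k0]
      exact Finset.single_le_sum (f := fun i => c (Sum.inl i)) (fun _ _ => Nat.zero_le _)
        (mem_univ j)
    have hA' : c' (Sum.inl j) ≤ ∑ i, c' (Sum.inl i) :=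
      Finset.single_le_sum (f := fun i => c' (Sum.inl i)) (fun _ _ => Nat.zero_le _)
        (mem_univ j)
    have u1 := unique_aux hl hc hA kj
    have u2 := unique_aux hl hc' hA' kj.symm
    omega
  · intro j
    refine Fin.cases ?_ (fun j => ?_) j
    · rw [Fin.cons_zero]; exact h1
    · rw [Fin.cons_succ]; exact h2 j
  · intro j
    refine Fin.cases ?_ (fun j => ?_) j
    · rw [Fin.cons_zero]; exact h1'
    · rw [Fin.cons_succ]; exact h2' j
  · rw [Fin.sum_univ_succ, Fin.sum_univ_succ (n := 10)]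
    simp only [Fin.cons_zero, Fin.cons_succ, Fin.val_zero, pow_zero, mul_one, Fin.val_succ]
    exact he

lemma xp_inl (i : Fin 10) : xp (Sum.inl i) = sqf (tri i) := rfl

lemma xp_inr (γ : Fin 10 ⊕ Bool) : xp (Sum.inr γ) = 0 := rfl

lemma sum_xp_eq (c : Ix → ℕ) : ∑ γ, c γ • xp γ = ∑ i, c (Sum.inl i) • sqf (tri i) := by
  rw [Fintype.sum_sum_type]
  have h1 : ∑ γ : Fin 10 ⊕ Bool, c (Sum.inr γ) • xp (Sum.inr γ) = 0 :=
    Finset.sum_eq_zero fun γ _ => by rw [xp_inr, smul_zero]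
  rw [h1, add_zero]
  exact Finset.sum_congr rfl fun i _ => by rw [xp_inl]

/-- the coefficient ideals are principal -/
lemma principal {h l : ℕ} (hl : l < h) : ∃ μ : ℕ → (Fin 8 →₀ ℕ), ∀ v, μ v 6 = 0 ∧ μ v 7 = 0 ∧
    ∀ m : Fin 8 →₀ ℕ, (∃ c : Ix → ℕ, ∑ γ, c γ = l ∧ ∑ γ, c γ * ex h γ = v ∧
      ∑ γ, c γ • xp γ ≤ m) ↔ (∃ c : Ix → ℕ, ∑ γ, c γ = l ∧ ∑ γ, c γ * ex h γ = v) ∧ μ v ≤ m := by
  have : ∀ v, ∃ μ : Fin 8 →₀ ℕ, μ 6 = 0 ∧ μ 7 = 0 ∧
    ∀ m : Fin 8 →₀ ℕ, (∃ c : Ix → ℕ, ∑ γ, c γ = l ∧ ∑ γ, c γ * ex h γ = v ∧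
      ∑ γ, c γ • xp γ ≤ m) ↔ (∃ c : Ix → ℕ, ∑ γ, c γ = l ∧ ∑ γ, c γ * ex h γ = v) ∧ μ ≤ m := by
    intro v
    by_cases hv : ∃ c : Ix → ℕ, ∑ γ, c γ = l ∧ ∑ γ, c γ * ex h γ = v
    · obtain ⟨c, hc1, hc2⟩ := hv
      refine ⟨∑ γ, c γ • xp γ, (sum_xp6 c).1, (sum_xp6 c).2, fun m => ⟨?_, ?_⟩⟩
      · rintro ⟨c', hc1', hc2', h3⟩
        refine ⟨⟨c, hc1, hc2⟩, ?_⟩
        have h4 : ∑ γ, c γ • xp γ = ∑ γ, c' γ • xp γ := by
          rw [sum_xp_eq, sum_xp_eq]
          refine Finset.sum_congr rfl fun i _ => ?_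
          rw [rep_unique hl hc1 hc1' (hc2.trans hc2'.symm) i]
        rw [h4]
        exact h3
      · rintro ⟨-, h3⟩
        exact ⟨c, hc1, hc2, h3⟩
    · refine ⟨0, rfl, rfl, fun m => ⟨?_, ?_⟩⟩
      · rintro ⟨c, h1, h2, -⟩
        exact absurd ⟨c, h1, h2⟩ hv
      · rintro ⟨h1, -⟩
        exact absurd h1 hv
  choose μ hμ using this
  exact ⟨μ, hμ⟩

/-! ### The upper Koszul complexes -/

lemma sqf_le_iff (a : Fin 8 →₀ ℕ) (T : Finset (Fin 8)) : sqf T ≤ a ↔ leT a T := by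
  constructor
  · intro h i hi
    have := h i
    rwa [sqf_apply, if_pos hi] at this
  · intro h i
    rw [sqf_apply]
    split_ifs with hi
    · exact h i hi
    · exact Nat.zero_le _

lemma le_sub_iff {a μ : Fin 8 →₀ ℕ} (h6 : μ 6 = 0) (h7 : μ 7 = 0) {T : Finset (Fin 8)}
    (hT : leT a T) : μ ≤ a - sqf T ↔ fr a μ T := by
  constructor
  · intro h i _ _
    have h1 := h i
    rw [Finsupp.tsub_apply, sqf_apply] at h1
    split_ifs at h1 ⊢ with hi
    · have := hT i hi
      omega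
    · omega
  · intro h i
    by_cases i6 : i = 6
    · subst i6
      rw [h6]
      exact Nat.zero_le _
    · by_cases i7 : i = 7
      · subst i7
        rw [h7]
        exact Nat.zero_le _
      · have h1 := h i i6 i7
        rw [Finsupp.tsub_apply, sqf_apply]
        split_ifs at h1 ⊢ with hi
        · omega
        · omega

theorem low (K : Type*) [Field K] {h l : ℕ} (hl : l < h) (a : Fin 8 →₀ ℕ) :
    Nice (KX (monIdeal K (G h) ^ l) a) := by
  have hh : 1 ≤ h := by omega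
  obtain ⟨μ, hμ⟩ := principal hl
  have hK : ∀ T, T ∈ KX (monIdeal K (G h) ^ l) a ↔ leT a T ∧ In h l (a - sqf T) := by
    intro T
    change (sqf T ≤ a ∧ monomial (a - sqf T) (1 : K) ∈ monIdeal K (G h) ^ l) ↔ _
    rw [mem_iff K hh, sqf_le_iff]
  have hIn : ∀ T, leT a T → (In h l (a - sqf T) ↔ (l * D h + 1 ≤ (a - sqf T) 6 + (a - sqf T) 7 ∨
      ((a - sqf T) 6 + (a - sqf T) 7 = l * D h ∧
      (∃ c : Ix → ℕ, ∑ γ, c γ = l ∧ ∑ γ, c γ * ex h γ = (a - sqf T) 6) ∧
        fr a (μ ((a - sqf T) 6)) T))) := by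
    intro T hT
    unfold In
    rw [(hμ _).2.2, le_sub_iff (hμ _).1 (hμ _).2.1 hT]
  have t6 : ∀ T : Finset (Fin 8), (a - sqf T) 6 = a 6 - (if 6 ∈ T then 1 else 0) := by
    intro T
    rw [Finsupp.tsub_apply, sqf_apply]
  have t7 : ∀ T : Finset (Fin 8), (a - sqf T) 7 = a 7 - (if 7 ∈ T then 1 else 0) := by
    intro T
    rw [Finsupp.tsub_apply, sqf_apply]
  rcases lt_trichotomy (a 6 + a 7) (l * D h) with hlt | heq | hgt
  · left
    ext T
    simp only [Set.mem_empty_iff_false, iff_false]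
    rw [hK]
    rintro ⟨h1, h2⟩
    rw [hIn T h1, t6, t7] at h2
    rcases h2 with h2 | ⟨h2, -⟩ <;> omega
  · by_cases hE : ∃ c : Ix → ℕ, ∑ γ, c γ = l ∧ ∑ γ, c γ * ex h γ = a 6
    · refine nice1 (a := a) (μ := μ (a 6)) _ fun T => ?_
      rw [hK]
      constructor
      · rintro ⟨h1, h2⟩
        rw [hIn T h1, t6, t7] at h2
        have h6 : 6 ∉ T := by
          intro h6
          have := h1 6 h6
          rw [if_pos h6] at h2
          rcases h2 with h2 | ⟨h2, -⟩ <;> omega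
        have h7 : 7 ∉ T := by
          intro h7
          have := h1 7 h7
          rw [if_pos h7] at h2
          rcases h2 with h2 | ⟨h2, -⟩ <;> omega
        rw [if_neg h6, if_neg h7, Nat.sub_zero, Nat.sub_zero] at h2
        rcases h2 with h2 | ⟨-, -, h2⟩
        · omega
        · exact ⟨h6, h7, h2⟩
      · rintro ⟨h6, h7, h3⟩
        have h1 : leT a T := by
          intro i hi
          have := h3 i (fun h => h6 (h ▸ hi)) (fun h => h7 (h ▸ hi))
          rw [if_pos hi] at this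
          omega
        refine ⟨h1, ?_⟩
        rw [hIn T h1, t6, t7, if_neg h6, if_neg h7, Nat.sub_zero, Nat.sub_zero]
        exact Or.inr ⟨heq, hE, h3⟩
    · left
      ext T
      simp only [Set.mem_empty_iff_false, iff_false]
      rw [hK]
      rintro ⟨h1, h2⟩
      rw [hIn T h1, t6, t7] at h2
      rcases h2 with h2 | ⟨h2, h3, -⟩
      · omega
      · have h6 : 6 ∉ T := by
          intro h6
          have := h1 6 h6
          rw [if_pos h6] at h2
          omega
        rw [if_neg h6, Nat.sub_zero] at h3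
        exact hE h3
  · rcases Nat.eq_or_lt_of_le hgt with h1 | h1
    · -- degree `d + 1`
      refine nice2 (a := a) _ (∃ c : Ix → ℕ, ∑ γ, c γ = l ∧ ∑ γ, c γ * ex h γ = a 6 - 1)
        (∃ c : Ix → ℕ, ∑ γ, c γ = l ∧ ∑ γ, c γ * ex h γ = a 6) (μ (a 6 - 1)) (μ (a 6))
        fun T => ?_
      rw [hK]
      constructor
      · rintro ⟨hT, h2⟩
        rw [hIn T hT, t6, t7] at h2
        by_cases h6 : 6 ∈ T
        · have a6 := hT 6 h6
          by_cases h7 : 7 ∈ T
          · have a7 := hT 7 h7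
            rw [if_pos h6, if_pos h7] at h2
            rcases h2 with h2 | ⟨h2, -⟩ <;> omega
          · rw [if_pos h6, if_neg h7] at h2
            rcases h2 with h2 | ⟨-, h2, h3⟩
            · omega
            · exact ⟨hT, fun h => h7 h.2, fun _ => ⟨h2, h3⟩, fun h => absurd h h7⟩
        · by_cases h7 : 7 ∈ T
          · have a7 := hT 7 h7
            rw [if_neg h6, if_pos h7, Nat.sub_zero] at h2
            rcases h2 with h2 | ⟨-, h2, h3⟩
            · omega
            · exact ⟨hT, fun h => h6 h.1, fun h => absurd h h6, fun _ => ⟨h2, h3⟩⟩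
          · exact ⟨hT, fun h => h6 h.1, fun h => absurd h h6, fun h => absurd h h7⟩
      · rintro ⟨hT, h67, hs, ht⟩
        refine ⟨hT, ?_⟩
        rw [hIn T hT, t6, t7]
        by_cases h6 : 6 ∈ T
        · have a6 := hT 6 h6
          have h7 : 7 ∉ T := fun h => h67 ⟨h6, h⟩
          rw [if_pos h6, if_neg h7]
          right
          exact ⟨by omega, (hs h6).1, (hs h6).2⟩
        · by_cases h7 : 7 ∈ T
          · have a7 := hT 7 h7
            rw [if_neg h6, if_pos h7, Nat.sub_zero]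
            right
            exact ⟨by omega, (ht h7).1, (ht h7).2⟩
          · rw [if_neg h6, if_neg h7]
            left
            omega
    · rcases Nat.eq_or_lt_of_le h1 with h2 | h2
      · -- degree `d + 2`
        refine nice3 (a := a) (μ := μ (a 6 - 1)) _
          (∃ c : Ix → ℕ, ∑ γ, c γ = l ∧ ∑ γ, c γ * ex h γ = a 6 - 1) (fun T => ?_) (by omega)
        rw [hK]
        constructor
        · rintro ⟨hT, h3⟩
          refine ⟨hT, fun h6 h7 => ?_⟩
          have a6 := hT 6 h6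
          have a7 := hT 7 h7
          rw [hIn T hT, t6, t7, if_pos h6, if_pos h7] at h3
          rcases h3 with h3 | ⟨-, h3⟩
          · omega
          · exact h3
        · rintro ⟨hT, h3⟩
          refine ⟨hT, ?_⟩
          rw [hIn T hT, t6, t7]
          by_cases h6 : 6 ∈ T
          · have a6 := hT 6 h6
            by_cases h7 : 7 ∈ T
            · have a7 := hT 7 h7
              rw [if_pos h6, if_pos h7]
              right
              exact ⟨by omega, h3 h6 h7⟩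
            · left
              rw [if_pos h6, if_neg h7]
              omega
          · left
            rw [if_neg h6]
            split_ifs <;> omega
      · refine nice4 (a := a) _ (fun T => ?_) (by omega)
        rw [hK]
        constructor
        · exact fun h => h.1
        · intro hT
          refine ⟨hT, Or.inl ?_⟩
          rw [t6, t7]
          split_ifs <;> omega

theorem low_betti {h l : ℕ} (hl : l < h) (k k' : Type*) [Field k] [Field k'] (i : ℕ)
    (a : Fin 8 →₀ ℕ) : betti (monIdeal k (G h) ^ l) i a = betti (monIdeal k' (G h) ^ l) i a := by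
  have hh : 1 ≤ h := by omega
  rw [betti_eq_cb, betti_eq_cb]
  have h1 : KX (monIdeal k (G h) ^ l) a = KX (monIdeal k' (G h) ^ l) a := by
    ext T
    change (sqf T ≤ a ∧ monomial (a - sqf T) (1 : k) ∈ monIdeal k (G h) ^ l) ↔
      (sqf T ≤ a ∧ monomial (a - sqf T) (1 : k') ∈ monIdeal k' (G h) ^ l)
    rw [mem_iff k hh, mem_iff k' hh]
  rw [h1]
  exact Nice.cb_eq (low k' hl a) (KX_down _ _) k k' i

end Q36.FD
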