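import Pool.Agent.Q36.FD.Kos

set_option autoImplicit false

/-!
The upper Koszul complexes of an ideal all of whose coefficient ideals in two of the variables are
principal.
-/

namespace Q36.FD

open Finset

variable (a μ : Fin 8 → ℕ)

/-- `T` lies below `a` -/
def leT (a : Fin 8 → ℕ) (T : Finset (Fin 8)) : Prop := ∀ i ∈ T, 1 ≤ a i

/-- the part of `T` in the first six variables fits between `μ` and `a` -/
def fr (a μ : Fin 8 → ℕ) (T : Finset (Fin 8)) : Prop :=
  ∀ i, i ≠ 6 → i ≠ 7 → μ i + (if i ∈ T then 1 else 0) ≤ a i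

variable {a μ}

lemma leT_insert {w : Fin 8} (hw : 1 ≤ a w) {T : Finset (Fin 8)} (h : leT a T) :
    leT a (insert w T) := by
  intro i hi
  rcases mem_insert.1 hi with rfl | hi
  · exact hw
  · exact h i hi

lemma leT_sub {S T : Finset (Fin 8)} (h : leT a T) (hS : S ⊆ T) : leT a S :=
  fun i hi => h i (hS hi)

lemma fr_insert {w : Fin 8} (hw : μ w < a w) {T : Finset (Fin 8)} (h : fr a μ T) :
    fr a μ (insert w T) := by
  intro i h6 h7
  have h1 := h i h6 h7
  by_cases hi : i = w
  · subst hi
    rw [if_pos (mem_insert_self _ _)]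
    omega
  · simpa [mem_insert, hi] using h1

lemma fr_sub {S T : Finset (Fin 8)} (h : fr a μ T) (hS : S ⊆ T) : fr a μ S := by
  intro i h6 h7
  have h1 := h i h6 h7
  by_cases h3 : i ∈ S
  · rw [if_pos (hS h3)] at h1
    rwa [if_pos h3]
  · rw [if_neg h3]
    omega

lemma fr_congr {S T : Finset (Fin 8)} (h : fr a μ T)
    (hS : ∀ i, i ≠ 6 → i ≠ 7 → i ∈ S → i ∈ T) : fr a μ S := by
  intro i h6 h7
  have h1 := h i h6 h7
  by_cases h3 : i ∈ S
  · rw [if_pos (hS i h6 h7 h3)] at h1
    rwa [if_pos h3]
  · rw [if_neg h3]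
    omega

lemma fr_lt {T : Finset (Fin 8)} (h : fr a μ T) {w : Fin 8} (h6 : w ≠ 6) (h7 : w ≠ 7)
    (hw : w ∈ T) : μ w < a w := by
  have := h w h6 h7
  rw [if_pos hw] at this
  omega

/-- if there is no free variable then `T` has none of the first six variables -/
lemma sub_of_nofree (hn : ∀ w, w ≠ 6 → w ≠ 7 → ¬ μ w < a w) {T : Finset (Fin 8)} (h : fr a μ T) :
    ∀ i ∈ T, i = 6 ∨ i = 7 := by
  intro i hi
  by_contra hcon
  push Not at hcon
  exact hn i hcon.1 hcon.2 (fr_lt h hcon.1 hcon.2 hi)

lemma eq_of_sub {i : Fin 8} {T : Finset (Fin 8)} (h1 : ∀ j ∈ T, j = i) (h2 : i ∈ T) :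
    T = {i} := by
  ext j
  rw [mem_singleton]
  exact ⟨h1 j, fun h => h ▸ h2⟩

lemma nice_cone {F : Set (Finset (Fin 8))} (w : Fin 8) (h : ∀ T ∈ F, insert w T ∈ F) : Nice F := by
  refine Or.inr (Or.inl ⟨w, ∅, 0, by simp, fun T hT _ => h T hT, by simp⟩)

lemma nice_one {F : Set (Finset (Fin 8))} (w : Fin 8) (S : Finset (Fin 8)) (hS : S ∈ F)
    (hw : w ∉ S) (hwS : insert w S ∉ F) (h : ∀ T ∈ F, T ≠ S → insert w T ∈ F) : Nice F := by
  refine Or.inr (Or.inl ⟨w, {S}, S.card, ?_, ?_, ?_⟩)
  · intro T hT
    rw [mem_singleton] at hT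
    subst hT
    exact ⟨hS, rfl, hw⟩
  · intro T hT hTS
    exact h T hT (by simpa using hTS)
  · intro T hT
    rw [mem_singleton] at hT
    subst hT
    exact hwS

/-- degree `d` -/
lemma nice1 (F : Set (Finset (Fin 8))) (hF : ∀ T, T ∈ F ↔ 6 ∉ T ∧ 7 ∉ T ∧ fr a μ T) :
    Nice F := by
  by_cases h0 : ∃ T, T ∈ F
  · obtain ⟨T0, hT0⟩ := h0
    rw [hF] at hT0
    have hE : (∅ : Finset (Fin 8)) ∈ F := by
      rw [hF]
      exact ⟨by simp, by simp, fr_sub hT0.2.2 (empty_subset _)⟩
    by_cases h1 : ∃ w, w ≠ 6 ∧ w ≠ 7 ∧ μ w < a w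
    · obtain ⟨w, h6, h7, hw⟩ := h1
      refine nice_cone w fun T hT => ?_
      rw [hF] at hT ⊢
      exact ⟨by simp [hT.1, Ne.symm h6], by simp [hT.2.1, Ne.symm h7], fr_insert hw hT.2.2⟩
    · push Not at h1
      have hn : ∀ w, w ≠ 6 → w ≠ 7 → ¬ μ w < a w := fun w h6 h7 => not_lt.2 (h1 w h6 h7)
      refine nice_one 0 ∅ hE (by simp) ?_ ?_
      · rw [hF]
        rintro ⟨-, -, h⟩
        exact hn 0 (by decide) (by decide) (fr_lt h (by decide) (by decide) (by simp))
      · intro T hT hTE
        exfalso
        apply hTE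
        rw [hF] at hT
        ext i
        simp only [notMem_empty, iff_false]
        intro hi
        rcases sub_of_nofree hn hT.2.2 i hi with rfl | rfl
        · exact hT.1 hi
        · exact hT.2.1 hi
  · left
    ext T
    simp only [Set.mem_empty_iff_false, iff_false]
    exact fun h => h0 ⟨T, h⟩

/-- degree at least `d + 3` -/
lemma nice4 (F : Set (Finset (Fin 8))) (hF : ∀ T, T ∈ F ↔ leT a T) (h : 1 ≤ a 6 + a 7) :
    Nice F := by
  by_cases h6 : 1 ≤ a 6
  · refine nice_cone 6 fun T hT => ?_
    rw [hF] at hT ⊢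
    exact leT_insert h6 hT
  · refine nice_cone 7 fun T hT => ?_
    rw [hF] at hT ⊢
    exact leT_insert (by omega) hT

/-- degree `d + 2` -/
lemma nice3 (F : Set (Finset (Fin 8))) (E : Prop)
    (hF : ∀ T, T ∈ F ↔ leT a T ∧ (6 ∈ T → 7 ∈ T → E ∧ fr a μ T)) (h : 1 ≤ a 6 + a 7) :
    Nice F := by
  by_cases h6 : 1 ≤ a 6
  swap
  · refine nice_cone 7 fun T hT => ?_
    rw [hF] at hT ⊢
    refine ⟨leT_insert (by omega) hT.1, fun h1 _ => ?_⟩
    have h2 : (6 : Fin 8) ∈ T := by simpa using h1
    exact absurd (hT.1 6 h2) h6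
  by_cases h7 : 1 ≤ a 7
  swap
  · refine nice_cone 6 fun T hT => ?_
    rw [hF] at hT ⊢
    refine ⟨leT_insert h6 hT.1, fun _ h1 => ?_⟩
    have h2 : (7 : Fin 8) ∈ T := by simpa using h1
    exact absurd (hT.1 7 h2) h7
  by_cases hE : E ∧ fr a μ ∅
  · -- the top part is present
    by_cases h1 : ∃ w, w ≠ 6 ∧ w ≠ 7 ∧ μ w < a w
    · obtain ⟨w, w6, w7, hw⟩ := h1
      refine nice_cone w fun T hT => ?_
      rw [hF] at hT ⊢
      refine ⟨leT_insert (by omega) hT.1, fun h1 h2 => ?_⟩
      have h3 : (6 : Fin 8) ∈ T := by simpa [Ne.symm w6] using h1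
      have h4 : (7 : Fin 8) ∈ T := by simpa [Ne.symm w7] using h2
      exact ⟨hE.1, fr_insert hw (hT.2 h3 h4).2⟩
    · push Not at h1
      have hn : ∀ w, w ≠ 6 → w ≠ 7 → ¬ μ w < a w := fun w h6 h7 => not_lt.2 (h1 w h6 h7)
      by_cases hx : ∃ w, w ≠ 6 ∧ w ≠ 7 ∧ 1 ≤ a w
      · obtain ⟨w, w6, w7, hw⟩ := hx
        refine nice_one w {6, 7} ?_ (by simp [w6, w7]) ?_ ?_
        · rw [hF]
          refine ⟨?_, fun _ _ => ⟨hE.1, fr_congr hE.2 ?_⟩⟩
          · intro i hi
            simp only [mem_insert, mem_singleton] at hi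
            rcases hi with rfl | rfl
            · exact h6
            · exact h7
          · intro i i6 i7 hi
            simp [i6, i7] at hi
        · rw [hF]
          rintro ⟨-, h2⟩
          exact hn w w6 w7 (fr_lt (h2 (by simp) (by simp)).2 w6 w7 (by simp))
        · intro T hT hTS
          rw [hF] at hT ⊢
          refine ⟨leT_insert hw hT.1, fun h1 h2 => ?_⟩
          have h3 : (6 : Fin 8) ∈ T := by simpa [Ne.symm w6] using h1
          have h4 : (7 : Fin 8) ∈ T := by simpa [Ne.symm w7] using h2
          exfalso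
          apply hTS
          ext i
          simp only [mem_insert, mem_singleton]
          constructor
          · exact sub_of_nofree hn (hT.2 h3 h4).2 i
          · rintro (rfl | rfl)
            · exact h3
            · exact h4
      · -- no vertex among the first six
        push Not at hx
        refine nice_cone 6 fun T hT => ?_
        rw [hF] at hT ⊢
        refine ⟨leT_insert h6 hT.1, fun _ _ => ⟨hE.1, fr_congr hE.2 ?_⟩⟩
        intro i i6 i7 hi
        have h2 : i ∈ T := by simpa [i6] using hi
        have := hT.1 i h2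
        have := hx i i6 i7
        omega
  · have hno : ∀ T, T ∈ F ↔ leT a T ∧ ¬ (6 ∈ T ∧ 7 ∈ T) := by
      intro T
      rw [hF]
      constructor
      · rintro ⟨h1, h2⟩
        exact ⟨h1, fun h3 => hE ⟨(h2 h3.1 h3.2).1, fr_sub (h2 h3.1 h3.2).2 (empty_subset _)⟩⟩
      · rintro ⟨h1, h2⟩
        exact ⟨h1, fun h3 h4 => absurd ⟨h3, h4⟩ h2⟩
    by_cases hx : ∃ w, w ≠ 6 ∧ w ≠ 7 ∧ 1 ≤ a w
    · obtain ⟨w, w6, w7, hw⟩ := hx
      refine nice_cone w fun T hT => ?_
      rw [hno] at hT ⊢
      refine ⟨leT_insert hw hT.1, ?_⟩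
      simpa [Ne.symm w6, Ne.symm w7] using hT.2
    · push Not at hx
      refine nice_one 6 {7} ?_ (by simp) ?_ ?_
      · rw [hno]
        refine ⟨?_, by simp⟩
        intro i hi
        rw [mem_singleton] at hi
        rw [hi]
        exact h7
      · rw [hno]
        rintro ⟨-, h2⟩
        exact h2 ⟨by simp, by simp⟩
      · intro T hT hTS
        rw [hno] at hT ⊢
        refine ⟨leT_insert h6 hT.1, ?_⟩
        rintro ⟨-, h2⟩
        have h3 : (7 : Fin 8) ∈ T := by simpa using h2
        apply hTS
        refine eq_of_sub ?_ h3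
        intro j hj
        by_contra h4
        by_cases h5 : j = 6
        · subst h5
          exact hT.2 ⟨hj, h3⟩
        · have := hT.1 j hj
          have := hx j h5 h4
          omega

/-- degree `d + 1` -/
lemma nice2 (F : Set (Finset (Fin 8))) (Es Et : Prop) (μs μt : Fin 8 → ℕ)
    (hF : ∀ T, T ∈ F ↔ leT a T ∧ ¬ (6 ∈ T ∧ 7 ∈ T) ∧ (6 ∈ T → Es ∧ fr a μs T) ∧
      (7 ∈ T → Et ∧ fr a μt T)) : Nice F := by
  by_cases hs : ({6} : Finset (Fin 8)) ∈ F
  · have hs' := (hF _).1 hs
    have a6 : 1 ≤ a 6 := hs'.1 6 (by simp)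
    have hEs : Es := (hs'.2.2.1 (by simp)).1
    have hfs : fr a μs ∅ := fr_sub (hs'.2.2.1 (by simp)).2 (empty_subset _)
    by_cases ht : ({7} : Finset (Fin 8)) ∈ F
    · have ht' := (hF _).1 ht
      have a7 : 1 ≤ a 7 := ht'.1 7 (by simp)
      have hEt : Et := (ht'.2.2.2 (by simp)).1
      have hft : fr a μt ∅ := fr_sub (ht'.2.2.2 (by simp)).2 (empty_subset _)
      by_cases h1 : ∃ w, w ≠ 6 ∧ w ≠ 7 ∧ μs w < a w
      · obtain ⟨w, w6, w7, hw⟩ := h1
        by_cases h2 : μt w < a w
        · refine nice_cone w fun T hT => ?_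
          rw [hF] at hT ⊢
          refine ⟨leT_insert (by omega) hT.1, ?_, fun h3 => ?_, fun h3 => ?_⟩
          · simpa [Ne.symm w6, Ne.symm w7] using hT.2.1
          · have h4 : (6 : Fin 8) ∈ T := by simpa [Ne.symm w6] using h3
            exact ⟨hEs, fr_insert hw (hT.2.2.1 h4).2⟩
          · have h4 : (7 : Fin 8) ∈ T := by simpa [Ne.symm w7] using h3
            exact ⟨hEt, fr_insert h2 (hT.2.2.2 h4).2⟩
        · -- sets that cannot be enlarged by `w` contain `7`
          have hkey : ∀ T ∈ F, insert w T ∉ F → 7 ∈ T ∧ w ∉ T := by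
            intro T hT h3
            have hwT : w ∉ T := fun h => h3 (by rwa [insert_eq_of_mem h])
            refine ⟨?_, hwT⟩
            by_contra h4
            apply h3
            rw [hF] at hT ⊢
            refine ⟨leT_insert (by omega) hT.1, ?_, fun h5 => ?_, fun h5 => ?_⟩
            · simpa [Ne.symm w6, Ne.symm w7] using hT.2.1
            · have h6 : (6 : Fin 8) ∈ T := by simpa [Ne.symm w6] using h5
              exact ⟨hEs, fr_insert hw (hT.2.2.1 h6).2⟩
            · exact absurd (by simpa [Ne.symm w7] using h5) h4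
          have hkey2 : ∀ T, 7 ∈ T → insert w T ∉ F := by
            intro T h3 h4
            rw [hF] at h4
            exact h2 (fr_lt (h4.2.2.2 (by simp [h3])).2 w6 w7 (by simp))
          by_cases h3 : ∃ w', w' ≠ 6 ∧ w' ≠ 7 ∧ μt w' < a w'
          · obtain ⟨w', w6', w7', hw'⟩ := h3
            refine Or.inr (Or.inr ⟨w, w', ?_, ?_⟩)
            · intro T hT h4
              obtain ⟨h5, -⟩ := hkey T hT h4
              rw [hF] at hT ⊢
              refine ⟨leT_insert (by omega) hT.1, ?_, fun h6 => ?_, fun _ => ?_⟩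
              · simpa [Ne.symm w6', Ne.symm w7'] using hT.2.1
              · have h7 : (6 : Fin 8) ∈ T := by simpa [Ne.symm w6'] using h6
                exact absurd ⟨h7, h5⟩ hT.2.1
              · exact ⟨hEt, fr_insert hw' (hT.2.2.2 h5).2⟩
            · intro T hT h4
              obtain ⟨h5, -⟩ := hkey T hT h4
              exact hkey2 _ (mem_erase.2 ⟨Ne.symm w7', h5⟩)
          · push Not at h3
            have hn : ∀ w, w ≠ 6 → w ≠ 7 → ¬ μt w < a w := fun w h6 h7 => not_lt.2 (h3 w h6 h7)
            refine nice_one w {7} ht (by simp [w7]) (hkey2 _ (by simp)) ?_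
            intro T hT hTS
            by_contra h4
            obtain ⟨h5, -⟩ := hkey T hT h4
            apply hTS
            rw [hF] at hT
            refine eq_of_sub ?_ h5
            intro j hj
            rcases sub_of_nofree hn (hT.2.2.2 h5).2 j hj with rfl | rfl
            · exact absurd ⟨hj, h5⟩ hT.2.1
            · rfl
      · push Not at h1
        have hns : ∀ w, w ≠ 6 → w ≠ 7 → ¬ μs w < a w := fun w h6 h7 => not_lt.2 (h1 w h6 h7)
        have hsT : ∀ T ∈ F, 6 ∈ T → T = {6} := by
          intro T hT h5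
          rw [hF] at hT
          refine eq_of_sub ?_ h5
          intro j hj
          rcases sub_of_nofree hns (hT.2.2.1 h5).2 j hj with rfl | rfl
          · rfl
          · exact absurd ⟨h5, hj⟩ hT.2.1
        by_cases h3 : ∃ w', w' ≠ 6 ∧ w' ≠ 7 ∧ μt w' < a w'
        · obtain ⟨w, w6, w7, hw⟩ := h3
          refine nice_one w {6} hs (by simp [w6]) ?_ ?_
          · intro h4
            rw [hF] at h4
            exact hns w w6 w7 (fr_lt (h4.2.2.1 (by simp)).2 w6 w7 (by simp))
          · intro T hT hTS
            have h6T : 6 ∉ T := fun h => hTS (hsT T hT h)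
            rw [hF] at hT ⊢
            refine ⟨leT_insert (by omega) hT.1, ?_, fun h5 => ?_, fun h5 => ?_⟩
            · simpa [Ne.symm w6, Ne.symm w7] using hT.2.1
            · exact absurd (by simpa [Ne.symm w6] using h5) h6T
            · have h6 : (7 : Fin 8) ∈ T := by simpa [Ne.symm w7] using h5
              exact ⟨hEt, fr_insert hw (hT.2.2.2 h6).2⟩
        · push Not at h3
          have hnt : ∀ w, w ≠ 6 → w ≠ 7 → ¬ μt w < a w := fun w h6 h7 => not_lt.2 (h3 w h6 h7)
          have htT : ∀ T ∈ F, 7 ∈ T → T = {7} := by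
            intro T hT h5
            rw [hF] at hT
            refine eq_of_sub ?_ h5
            intro j hj
            rcases sub_of_nofree hnt (hT.2.2.2 h5).2 j hj with rfl | rfl
            · exact absurd ⟨hj, h5⟩ hT.2.1
            · rfl
          by_cases hx : ∃ w, w ≠ 6 ∧ w ≠ 7 ∧ 1 ≤ a w
          · obtain ⟨w, w6, w7, hw⟩ := hx
            refine Or.inr (Or.inl ⟨w, {{6}, {7}}, 1, ?_, ?_, ?_⟩)
            · intro T hT
              simp only [mem_insert, mem_singleton] at hT
              rcases hT with rfl | rfl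
              · exact ⟨hs, rfl, by simp [w6]⟩
              · exact ⟨ht, rfl, by simp [w7]⟩
            · intro T hT hTU
              simp only [mem_insert, mem_singleton, not_or] at hTU
              have h6T : 6 ∉ T := fun h => hTU.1 (hsT T hT h)
              have h7T : 7 ∉ T := fun h => hTU.2 (htT T hT h)
              rw [hF] at hT ⊢
              refine ⟨leT_insert hw hT.1, ?_, fun h5 => ?_, fun h5 => ?_⟩
              · simpa [Ne.symm w6, Ne.symm w7] using hT.2.1
              · exact absurd (by simpa [Ne.symm w6] using h5) h6T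
              · exact absurd (by simpa [Ne.symm w7] using h5) h7T
            · intro T hT
              simp only [mem_insert, mem_singleton] at hT
              rcases hT with rfl | rfl
              · intro h4
                rw [hF] at h4
                exact hns w w6 w7 (fr_lt (h4.2.2.1 (by simp)).2 w6 w7 (by simp))
              · intro h4
                rw [hF] at h4
                exact hnt w w6 w7 (fr_lt (h4.2.2.2 (by simp)).2 w6 w7 (by simp))
          · push Not at hx
            refine nice_one 6 {7} ht (by simp) ?_ ?_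
            · intro h4
              rw [hF] at h4
              exact h4.2.1 ⟨by simp, by simp⟩
            · intro T hT hTS
              have h7T : 7 ∉ T := fun h => hTS (htT T hT h)
              by_cases h6T : 6 ∈ T
              · rwa [insert_eq_of_mem h6T]
              · have : T = ∅ := by
                  ext i
                  simp only [notMem_empty, iff_false]
                  intro hi
                  have i6 : i ≠ 6 := fun h => h6T (h ▸ hi)
                  have i7 : i ≠ 7 := fun h => h7T (h ▸ hi)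
                  have := ((hF T).1 hT).1 i hi
                  have := hx i i6 i7
                  omega
                rw [this]
                exact hs
    · -- only `6`
      have h7T : ∀ T ∈ F, 7 ∉ T := by
        intro T hT h7
        apply ht
        rw [hF] at hT ⊢
        refine ⟨?_, by simp, by simp, fun _ => ⟨(hT.2.2.2 h7).1, fr_sub (hT.2.2.2 h7).2 ?_⟩⟩
        · intro i hi
          rw [mem_singleton] at hi
          rw [hi]
          exact hT.1 7 h7
        · simpa using h7
      by_cases h1 : ∃ w, w ≠ 6 ∧ w ≠ 7 ∧ μs w < a w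
      · obtain ⟨w, w6, w7, hw⟩ := h1
        refine nice_cone w fun T hT => ?_
        have h7 := h7T T hT
        rw [hF] at hT ⊢
        refine ⟨leT_insert (by omega) hT.1, ?_, fun h3 => ?_, fun h3 => ?_⟩
        · simpa [Ne.symm w6, Ne.symm w7] using hT.2.1
        · have h4 : (6 : Fin 8) ∈ T := by simpa [Ne.symm w6] using h3
          exact ⟨hEs, fr_insert hw (hT.2.2.1 h4).2⟩
        · exact absurd (by simpa [Ne.symm w7] using h3) h7
      · push Not at h1
        have hns : ∀ w, w ≠ 6 → w ≠ 7 → ¬ μs w < a w := fun w h6 h7 => not_lt.2 (h1 w h6 h7)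
        have hsT : ∀ T ∈ F, 6 ∈ T → T = {6} := by
          intro T hT h5
          have h7 := h7T T hT
          rw [hF] at hT
          refine eq_of_sub ?_ h5
          intro j hj
          rcases sub_of_nofree hns (hT.2.2.1 h5).2 j hj with rfl | rfl
          · rfl
          · exact absurd hj h7
        by_cases hx : ∃ w, w ≠ 6 ∧ w ≠ 7 ∧ 1 ≤ a w
        · obtain ⟨w, w6, w7, hw⟩ := hx
          refine nice_one w {6} hs (by simp [w6]) ?_ ?_
          · intro h4
            rw [hF] at h4
            exact hns w w6 w7 (fr_lt (h4.2.2.1 (by simp)).2 w6 w7 (by simp))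
          · intro T hT hTS
            have h6T : 6 ∉ T := fun h => hTS (hsT T hT h)
            have h7 := h7T T hT
            rw [hF] at hT ⊢
            refine ⟨leT_insert hw hT.1, ?_, fun h5 => ?_, fun h5 => ?_⟩
            · simpa [Ne.symm w6, Ne.symm w7] using hT.2.1
            · exact absurd (by simpa [Ne.symm w6] using h5) h6T
            · exact absurd (by simpa [Ne.symm w7] using h5) h7
        · push Not at hx
          refine nice_cone 6 fun T hT => ?_
          by_cases h6T : 6 ∈ T
          · rwa [insert_eq_of_mem h6T]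
          · have : T = ∅ := by
              ext i
              simp only [notMem_empty, iff_false]
              intro hi
              have i6 : i ≠ 6 := fun h => h6T (h ▸ hi)
              have i7 : i ≠ 7 := fun h => h7T T hT (h ▸ hi)
              have := ((hF T).1 hT).1 i hi
              have := hx i i6 i7
              omega
            rw [this]
            exact hs
  · have h6T : ∀ T ∈ F, 6 ∉ T := by
      intro T hT h6
      apply hs
      rw [hF] at hT ⊢
      refine ⟨?_, by simp, fun _ => ⟨(hT.2.2.1 h6).1, fr_sub (hT.2.2.1 h6).2 ?_⟩, by simp⟩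
      · intro i hi
        rw [mem_singleton] at hi
        rw [hi]
        exact hT.1 6 h6
      · simpa using h6
    by_cases ht : ({7} : Finset (Fin 8)) ∈ F
    · have ht' := (hF _).1 ht
      have a7 : 1 ≤ a 7 := ht'.1 7 (by simp)
      have hEt : Et := (ht'.2.2.2 (by simp)).1
      by_cases h1 : ∃ w, w ≠ 6 ∧ w ≠ 7 ∧ μt w < a w
      · obtain ⟨w, w6, w7, hw⟩ := h1
        refine nice_cone w fun T hT => ?_
        have h6 := h6T T hT
        rw [hF] at hT ⊢
        refine ⟨leT_insert (by omega) hT.1, ?_, fun h3 => ?_, fun h3 => ?_⟩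
        · simpa [Ne.symm w6, Ne.symm w7] using hT.2.1
        · exact absurd (by simpa [Ne.symm w6] using h3) h6
        · have h4 : (7 : Fin 8) ∈ T := by simpa [Ne.symm w7] using h3
          exact ⟨hEt, fr_insert hw (hT.2.2.2 h4).2⟩
      · push Not at h1
        have hnt : ∀ w, w ≠ 6 → w ≠ 7 → ¬ μt w < a w := fun w h6 h7 => not_lt.2 (h1 w h6 h7)
        have htT : ∀ T ∈ F, 7 ∈ T → T = {7} := by
          intro T hT h5
          have h6 := h6T T hT
          rw [hF] at hT
          refine eq_of_sub ?_ h5
          intro j hj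
          rcases sub_of_nofree hnt (hT.2.2.2 h5).2 j hj with rfl | rfl
          · exact absurd hj h6
          · rfl
        by_cases hx : ∃ w, w ≠ 6 ∧ w ≠ 7 ∧ 1 ≤ a w
        · obtain ⟨w, w6, w7, hw⟩ := hx
          refine nice_one w {7} ht (by simp [w7]) ?_ ?_
          · intro h4
            rw [hF] at h4
            exact hnt w w6 w7 (fr_lt (h4.2.2.2 (by simp)).2 w6 w7 (by simp))
          · intro T hT hTS
            have h7T : 7 ∉ T := fun h => hTS (htT T hT h)
            have h6 := h6T T hT
            rw [hF] at hT ⊢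
            refine ⟨leT_insert hw hT.1, ?_, fun h5 => ?_, fun h5 => ?_⟩
            · simpa [Ne.symm w6, Ne.symm w7] using hT.2.1
            · exact absurd (by simpa [Ne.symm w6] using h5) h6
            · exact absurd (by simpa [Ne.symm w7] using h5) h7T
        · push Not at hx
          refine nice_cone 7 fun T hT => ?_
          by_cases h7T : 7 ∈ T
          · rwa [insert_eq_of_mem h7T]
          · have : T = ∅ := by
              ext i
              simp only [notMem_empty, iff_false]
              intro hi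
              have i6 : i ≠ 6 := fun h => h6T T hT (h ▸ hi)
              have i7 : i ≠ 7 := fun h => h7T (h ▸ hi)
              have := ((hF T).1 hT).1 i hi
              have := hx i i6 i7
              omega
            rw [this]
            exact ht
    · -- neither
      have h7T : ∀ T ∈ F, 7 ∉ T := by
        intro T hT h7
        apply ht
        rw [hF] at hT ⊢
        refine ⟨?_, by simp, by simp, fun _ => ⟨(hT.2.2.2 h7).1, fr_sub (hT.2.2.2 h7).2 ?_⟩⟩
        · intro i hi
          rw [mem_singleton] at hi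
          rw [hi]
          exact hT.1 7 h7
        · simpa using h7
      have hF' : ∀ T, T ∈ F ↔ 6 ∉ T ∧ 7 ∉ T ∧ fr a 0 T := by
        intro T
        constructor
        · intro hT
          refine ⟨h6T T hT, h7T T hT, ?_⟩
          intro i i6 i7
          split_ifs with h
          · have := ((hF T).1 hT).1 i h
            simpa using this
          · simp
        · rintro ⟨h1, h2, h3⟩
          rw [hF]
          refine ⟨?_, fun h => h1 h.1, fun h => absurd h h1, fun h => absurd h h2⟩
          intro i hi
          have := h3 i (fun h => h1 (h ▸ hi)) (fun h => h2 (h ▸ hi))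
          rw [if_pos hi] at this
          simpa using this
      exact nice1 F hF'

end Q36.FD
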